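import Pool.Agent.Lib.MP_7511ee_lc.Bisect

/-!
The dense set of holes: reals whose binary expansion ends with the graph of `y`.
-/

namespace Pool.Agent.Lib.MP_7511ee_lc

open Pool.Agent.Shared.Type2 Encodable Filter Topology

/-- Binary digits from place `m` on. -/
def dg (a : B) (m n : ℕ) : ℕ := ap a (m + n + 1) - 2 * ap a (m + n)

@[fun_prop] theorem TD_dg {X : Type} [Rep X] {a : X → B} {m n : X → ℕ} (ha : TD a) (hm : TD m)
    (hn : TD n) : TD fun x => dg (a x) (m x) (n x) := by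
  unfold dg; fun_prop

/-- Expansions no tail of which isolates `y`. -/
def AA (y a : B) : Prop :=
  Steps a ∧ ∀ m : ℕ, (∃ i : ℕ, ∀ k : ℕ, dg a m (Nat.pair i k) ≠ 1) ∨
    ∃ v : B, v ≠ y ∧ ∀ i : ℕ, dg a m (Nat.pair i (ap v i)) = 1

theorem sig_AA {y : B} (hy : Sing y) : Sig (AA y) := by
  have h1 : Sig fun a : B => ∀ n : ℕ, ap a (n + 1) = 2 * ap a n ∨ ap a (n + 1) = 2 * ap a n + 1 :=
    Sig.all (Sig.or (Sig.eq (by fun_prop) (by fun_prop)) (Sig.eq (by fun_prop) (by fun_prop)))
  exact h1.and (Sig.all (Sig.or (Sig.ex (Sig.all (Sig.ne (by fun_prop) (by fun_prop))))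
    (Sig.exB (Sig.and (Sig.comp hy (by fun_prop))
      (Sig.all (Sig.eq (by fun_prop) (by fun_prop)))))))

theorem red_of_not_AA {y a : B} (h : Steps a) (h' : ¬ AA y a) : Red y a := by
  simp only [AA, h, true_and, not_forall, not_or, not_exists, not_and, not_not] at h'
  obtain ⟨m, h1, h2⟩ := h'
  have hex : ∀ p : Pt1 a × ℕ, ∃ k, decide (dg p.1.1 m (Nat.pair p.2 k) = 1) = true := by
    rintro ⟨⟨_, rfl⟩, i⟩
    simpa using h1 i
  have h3 : TD fun z : Pt1 a => lam fun i => Nat.find (hex (z, i)) :=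
    TD.lam' (TD.find' (by fun_prop) hex)
  refine red_iff_TD.2 (h3.of_eq ?_)
  rintro ⟨_, rfl⟩
  by_contra hne
  obtain ⟨i, hi⟩ := h2 _ hne
  exact hi (of_decide_eq_true (Nat.find_spec (hex (⟨_, rfl⟩, i))))

/-- The graph of `y`. -/
def hat (y : B) (n : ℕ) : ℕ := if y n.unpair.1 = n.unpair.2 then 1 else 0

/-- The holes. -/
def Hole (y : B) (z : ℝ) : Prop :=
  z < 0 ∨ ∃ (e : ℕ) (a : B), (∀ n, a (n + 1) = 2 * a n + hat y n) ∧
    ∀ n, (a n : ℝ) / 2 ^ (e + n) < z ∧ z < (a n + 1) / 2 ^ (e + n)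

theorem dense_hole (y : B) : Dense {z | Hole y z} := by
  refine dense_of_exists_between fun lo hi h => ?_
  rcases lt_or_ge lo 0 with h0 | h0
  · obtain ⟨z, h1, h2⟩ := exists_between (lt_min h h0)
    exact ⟨z, Or.inl (h2.trans_le (min_le_right _ _)), h1, h2.trans_le (min_le_left _ _)⟩
  obtain ⟨e, he⟩ := exists_div_pow_lt 2 (sub_pos.2 h)
  let a : B := fun n => nrec n (⌊lo * 2 ^ e⌋₊ + 1) fun n r => 2 * r + hat y n
  have ha : ∀ n, a (n + 1) = 2 * a n + hat y n := fun _ => rfl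
  have hs : Steps a := fun n => by
    rw [ha]
    unfold hat
    split_ifs
    · exact Or.inr rfl
    · exact Or.inl rfl
  obtain ⟨r, hr⟩ := hs.exists_real e
  have key : ∀ n, (a n : ℝ) / 2 ^ (e + n) < r ∧ r < (a n + 1) / 2 ^ (e + n) := fun n => by
    constructor
    · refine (hs.mono e (Nat.left_le_pair n (y n))).trans_lt
        (lt_of_lt_of_le ?_ (hr (Nat.pair n (y n) + 1)).1)
      have : hat y (Nat.pair n (y n)) = 1 := by simp [hat]
      rw [ha, this]
      generalize Nat.pair n (y n) = k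
      simp only
      rw [show (a k : ℝ) / 2 ^ (e + k) = 2 * a k / 2 ^ (e + (k + 1)) by field_simp; ring]
      gcongr
      push_cast
      linarith
    · refine lt_of_lt_of_le (lt_of_le_of_lt (hr (Nat.pair n (y n + 1) + 1)).2 ?_)
        (hs.anti e (Nat.left_le_pair n (y n + 1)))
      have : hat y (Nat.pair n (y n + 1)) = 0 := by simp [hat]
      rw [ha, this]
      generalize Nat.pair n (y n + 1) = k
      simp only
      rw [show (a k + 1 : ℝ) / 2 ^ (e + k) = 2 * (a k + 1) / 2 ^ (e + (k + 1)) by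
        field_simp; ring]
      gcongr
      push_cast
      linarith
  have a0 : (a 0 : ℝ) = ⌊lo * 2 ^ e⌋₊ + 1 := Nat.cast_succ _
  refine ⟨r, Or.inr ⟨e, a, ha, key⟩, lt_trans ?_ (key 0).1, (key 0).2.trans ?_⟩
  · rw [a0, add_zero, lt_div_iff₀ (by positivity)]
    exact Nat.lt_floor_add_one _
  · rw [lt_sub_iff_add_lt] at he
    refine lt_of_le_of_lt ?_ he
    rw [a0, add_zero, div_le_iff₀ (by positivity), add_mul, div_mul_cancel₀ _ (by positivity)]
    have := Nat.floor_le (show 0 ≤ lo * 2 ^ e by positivity)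
    linarith

theorem nat_eq_of_between {a b : ℕ} {t : ℝ} (h1 : a ≤ t) (h2 : t ≤ a + 1) (h3 : b < t)
    (h4 : t < b + 1) : a = b := by
  have e1 : a < b + 1 := by exact_mod_cast h1.trans_lt h4
  have e2 : b < a + 1 := by exact_mod_cast h3.trans_le h2
  omega

theorem not_int_between {a b : ℕ} (h3 : (b : ℝ) < a) (h4 : (a : ℝ) < b + 1) : False := by
  have e1 : a < b + 1 := by exact_mod_cast h4
  have e2 : b < a := by exact_mod_cast h3
  omega

theorem nat_eq_of_half {a b : ℕ} {t : ℝ} (h1 : |2 * t - 2 * a| < 1) (h2 : |2 * t - 2 * b| < 1) :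
    a = b := by
  rw [abs_lt] at h1 h2
  have e1 : a < b + 1 := by exact_mod_cast (show (a : ℝ) < b + 1 by linarith [h1.1, h2.2])
  have e2 : b < a + 1 := by exact_mod_cast (show (b : ℝ) < a + 1 by linarith [h1.2, h2.1])
  omega

theorem avoid {y : B} {T : B → List ℕ → Bool}
    (hl : ∀ x x' σ, (∀ i < σ.length, x i = x' i) → T x σ = T x' σ)
    (hc : ∀ x σ k, T x (σ ++ [k]) = true → T x σ = true)
    (hT : ∀ a, (∃ w : B, ∀ n, T a (pre w n) = true) → AA y a) {x : Ad → ℝ}
    (hx : x ∈ closure {x | Leg x}) (hG : ∀ s n, Gat T x s n) (s : Ad) : ¬ Hole y (x s) := by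
  have h0 : 0 ≤ x s := closure_minimal (t := {x : Ad → ℝ | 0 ≤ x s}) (fun u hu => by
    obtain ⟨a, m, e⟩ := hu.dy s
    rw [Set.mem_ofPred_eq, e]
    positivity) (isClosed_le continuous_const (continuous_apply s)) hx
  have h1 : ∀ c : ℕ × ℕ, 2 ≤ c.1 → x (c :: s) * (x s - c.2 / 2 ^ c.1) = 0 := fun c h2 =>
    closure_minimal (t := {x : Ad → ℝ | x (c :: s) * (x s - c.2 / 2 ^ c.1) = 0}) (fun u hu => by
      rw [Set.mem_ofPred_eq, mul_eq_zero, sub_eq_zero, or_iff_not_imp_left]
      exact hu.k1 s c h2) (isClosed_eq (by fun_prop) continuous_const) hx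
  rintro (h | ⟨e, b, hb, hz⟩)
  · exact absurd h0 (not_le.2 h)
  have hz' : ∀ n, (b n : ℝ) < 2 ^ (e + n) * x s ∧ 2 ^ (e + n) * x s < b n + 1 := fun n => by
    have := hz n
    rwa [div_lt_iff₀' (by positivity), lt_div_iff₀' (by positivity)] at this
  obtain ⟨n₀, hn₀⟩ := exists_div_pow_lt (2 ^ e)
    (lt_min (sub_pos.2 (hz' 0).1) (sub_pos.2 (hz' 0).2))
  rw [add_zero, lt_min_iff] at hn₀
  have key : ∀ n, ∃ a w : B, T a (pre w (n₀ + n)) = true ∧ ∀ j < n₀ + n,
      |2 * x ((1, j) :: s) - 2 * a j| < 1 ∧ |2 * x ((0, j) :: s) - 2 * w j| < 1 ∧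
        |2 ^ j * x s - a j| < 2 := by
    intro n
    rcases hG s (n₀ + n) with ⟨k, hk⟩ | ⟨c, h2, h3⟩ | h
    · exfalso
      have e1 : |2 ^ e * x s - ((2 ^ e * k : ℕ) : ℝ)| ≤ 2 ^ e / 2 ^ n₀ := by
        rw [← mul_sub, abs_mul, abs_of_pos (by positivity)] at hk
        push_cast
        rw [← mul_sub, abs_mul, abs_of_pos (by positivity), div_eq_mul_one_div]
        gcongr
        rw [le_div_iff₀' (by positivity)]
        refine le_trans ?_ hk.le
        gcongr
        · norm_num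
        · omega
      rw [abs_le] at e1
      exact not_int_between (a := 2 ^ e * k) (b := b 0) (by linarith [e1.2, hn₀.1])
        (by linarith [e1.1, hn₀.2])
    · exfalso
      rcases mul_eq_zero.1 (h1 c h2) with h | h
      · simp [Win, h] at h3
      · have e1 : 2 ^ (e + c.1) * x s = ((2 ^ e * c.2 : ℕ) : ℝ) := by
          rw [sub_eq_zero.1 h]; push_cast; field_simp; ring
        have := hz' c.1
        rw [e1] at this
        exact not_int_between this.1 this.2
    · exact h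
  choose A W hA hB using key
  let a : B := fun j => A (j + 1) j
  let w : B := fun j => W (j + 1) j
  have ea : ∀ n, ∀ j < n₀ + n, a j = A n j := fun n j hj =>
    nat_eq_of_half (hB (j + 1) j (by omega)).1 (hB n j hj).1
  have ew : ∀ n, ∀ j < n₀ + n, w j = W n j := fun n j hj =>
    nat_eq_of_half (hB (j + 1) j (by omega)).2.1 (hB n j hj).2.1
  have hAA : AA y a := hT a ⟨w, fun n => by
    have h2 : T a (pre w (n + n₀)) = true := by
      rw [add_comm, pre_congr (ew n), hl a (A n) _ (by simpa [pre] using ea n)]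
      exact hA n
    generalize n₀ = k at h2
    induction k with
    | zero => exact h2
    | succ k ih => exact ih (hc _ _ _ (by rwa [← add_assoc, pre_succ] at h2))⟩
  obtain ⟨r, hr⟩ := hAA.1.exists_real 0
  simp only [zero_add] at hr
  have hr' : ∀ n, (a n : ℝ) ≤ 2 ^ n * r ∧ 2 ^ n * r ≤ a n + 1 := fun n => by
    have := hr n
    rwa [div_le_iff₀' (by positivity), le_div_iff₀' (by positivity)] at this
  have er : x s = r := eq_of_close 3 fun k => by
    have h2 := abs_lt.1 (hB (k + 1) k (by omega)).2.2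
    have h3 := hr' k
    rw [Real.dist_eq, le_div_iff₀' (by positivity), ← abs_of_pos (show (0 : ℝ) < 2 ^ k by positivity),
      ← abs_mul, mul_sub, abs_le]
    simp only [a] at h3
    constructor <;> linarith [h2.1, h2.2]
  have eab : ∀ n, a (e + n) = b n := fun n =>
    nat_eq_of_between (hr' _).1 (hr' _).2 (er ▸ (hz' n).1) (er ▸ (hz' n).2)
  have ed : ∀ n, dg a e n = hat y n := fun n => by
    simp only [dg, ap_def]
    rw [add_assoc, eab, eab, hb]
    omega
  rcases hAA.2 e with ⟨i, hi⟩ | ⟨v, hv, hi⟩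
  · exact hi (y i) (by simp [ed, hat])
  · exact hv (funext fun i => by have := hi i; simp [ed, hat] at this; exact this.symm)

end Pool.Agent.Lib.MP_7511ee_lc
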