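import Pool.Agent.Lib.MP_7511ee_lc.Space

/-!
The bisection argument: a continuous colouring computes a binary expansion without witness.
-/

namespace Pool.Agent.Lib.MP_7511ee_lc

open Pool.Agent.Shared.Type2 Encodable Filter Topology

/-- Sequences of initial segments of a binary expansion. -/
def Steps (a : B) : Prop := ∀ n, a (n + 1) = 2 * a n ∨ a (n + 1) = 2 * a n + 1

theorem Steps.mono {a : B} (h : Steps a) (e : ℕ) :
    Monotone fun n => (a n : ℝ) / 2 ^ (e + n) := monotone_nat_of_le_succ fun n => by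
  rw [show (a n : ℝ) / 2 ^ (e + n) = 2 * a n / 2 ^ (e + (n + 1)) by field_simp; ring]
  gcongr
  rcases h n with h | h <;> simp [h]

theorem Steps.anti {a : B} (h : Steps a) (e : ℕ) :
    Antitone fun n => (a n + 1 : ℝ) / 2 ^ (e + n) := antitone_nat_of_succ_le fun n => by
  rw [show (a n + 1 : ℝ) / 2 ^ (e + n) = 2 * (a n + 1) / 2 ^ (e + (n + 1)) by field_simp; ring]
  gcongr
  rcases h n with h | h <;> rw [h] <;> push_cast <;> linarith

theorem Steps.exists_real {a : B} (h : Steps a) (e : ℕ) :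
    ∃ r : ℝ, ∀ n, (a n : ℝ) / 2 ^ (e + n) ≤ r ∧ r ≤ (a n + 1) / 2 ^ (e + n) := by
  have := (h.mono e).ciSup_mem_iInter_Icc_of_antitone (h.anti e) fun n => by
    simp only
    gcongr
    linarith
  exact ⟨_, fun n => Set.mem_iInter.1 this n⟩

theorem Steps.div {a : B} (h : Steps a) (m : ℕ) : Steps fun j => a j / 2 ^ m := by
  intro n
  have h1 := Nat.div_add_mod (a n) (2 ^ m)
  have h2 := Nat.mod_lt (a n) (show 0 < 2 ^ m by positivity)
  have h3 : 2 * (a n / 2 ^ m) ≤ a (n + 1) / 2 ^ m := by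
    rw [Nat.le_div_iff_mul_le (by positivity)]
    have := Nat.zero_le (a n % 2 ^ m)
    rcases h n with h | h <;> nlinarith
  have h4 : a (n + 1) / 2 ^ m < 2 * (a n / 2 ^ m) + 2 := by
    rw [Nat.div_lt_iff_lt_mul (by positivity)]
    rcases h n with h | h <;> nlinarith
  simp only
  omega

/-- Bisection guided by a colouring of the dyadic numbers. -/
def bis (c : ℕ → ℕ → Bool) (c₀ : Bool) (b m : ℕ) : B := lam fun n => nrec n b fun n a =>
  if c (2 * a + 1) (m + n + 1) = c₀ then 2 * a + 1 else 2 * a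

theorem bis_succ (c c₀ b m n) : bis c c₀ b m (n + 1) =
    if c (2 * bis c c₀ b m n + 1) (m + n + 1) = c₀ then 2 * bis c c₀ b m n + 1
    else 2 * bis c c₀ b m n := rfl

theorem steps_bis (c c₀ b m) : Steps (bis c c₀ b m) := fun n => by
  rw [bis_succ]
  split_ifs
  · exact Or.inr rfl
  · exact Or.inl rfl

/-- The canonical configuration with a dyadic value at `s`. -/
noncomputable def cn (x : Ad → ℝ) (s : Ad) (a k : ℕ) : Ad → ℝ :=
  mk x s (a / 2 ^ k) (gap a k (fun _ => 0) 0)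

theorem tendsto_mk (x : Ad → ℝ) (s : Ad) {r : ℝ} {a : ℕ → ℕ} (m : ℕ) (g : ℕ × ℕ → ℕ)
    (h : Tendsto (fun n => (a n : ℝ) / 2 ^ (m + n)) atTop (𝓝 r)) :
    Tendsto (fun n => mk x s (a n / 2 ^ (m + n)) (gap (a n) (m + n) g n)) atTop
      (𝓝 (mk x s r g)) := by
  refine tendsto_pi_nhds.2 fun t => ?_
  by_cases ht : s <:+ t
  · rcases eq_or_ne t s with rfl | hne
    · simpa only [mk_self] using h
    · rcases mk_cases ht hne with ⟨c, rfl⟩ | h'
      · simp only [mk_child]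
        refine tendsto_const_nhds.congr' ?_
        filter_upwards [eventually_gt_atTop c.1, eventually_gt_atTop c.2] with n h1 h2
        have : c ≠ (m + n, a n) := fun e => by rw [e] at h1; simp only at h1; omega
        simp [gap, this, h2]
      · simp only [h']
        exact tendsto_const_nhds
  · simp only [mk_out _ _ _ _ t ht]
    exact tendsto_const_nhds

theorem decode_aux {T : B → List ℕ → Bool} {χ : (Ad → ℝ) → Bool} (H : Cts T χ) {s : Ad}
    {x x' : Ad → ℝ} (h : Split χ s x x') (hm : Mini χ s x) (hle : x s ≤ x' s) :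
    ∃ (m b : ℕ) (c₀ : Bool), ∀ c : ℕ → ℕ → Bool,
      (∀ a k, Leg (cn x s a k) → c a k = χ (cn x s a k)) →
      ¬ ∃ w : B, ∀ n, T (fun j => bis c c₀ b m j / 2 ^ m) (pre w n) = true := by
  obtain ⟨hx, hx', ho, hne⟩ := h
  have leg : ∀ {a k : ℕ}, 2 ≤ k → x s ≤ a / 2 ^ k → a / 2 ^ k ≤ x' s → Leg (cn x s a k) :=
    fun h1 h2 h3 => leg_mk hx hx' ho h1 h2 h3 (fun _ _ => rfl) 0
  have ind : ∀ {a k : ℕ} {u}, 2 ≤ k → x s ≤ a / 2 ^ k → a / 2 ^ k ≤ x' s → Leg u → Out s u x →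
      u s = a / 2 ^ k → χ u = χ (cn x s a k) := fun h1 h2 h3 hu h4 h5 =>
    hm.indep hu (leg h1 h2 h3) h4 (mk_out _ _ _ _) (h5.trans (mk_self _ _ _ _).symm)
  obtain ⟨m, A, A', h2m, eA, eA'⟩ : ∃ m A A' : ℕ, 2 ≤ m ∧ x s = A / 2 ^ m ∧ x' s = A' / 2 ^ m := by
    obtain ⟨a, k, e⟩ := hx.dy s
    obtain ⟨a', k', e'⟩ := hx'.dy s
    refine ⟨k + k' + 2, a * 2 ^ (k' + 2), a' * 2 ^ (k + 2), by omega, ?_, ?_⟩
    · rw [e]; push_cast; field_simp; ring
    · rw [e']; push_cast; field_simp; ring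
  have hA : A ≤ A' := by
    rw [eA, eA', div_le_div_iff_of_pos_right (by positivity)] at hle
    exact_mod_cast hle
  obtain ⟨b, b1, b2, b3⟩ : ∃ b, A ≤ b ∧ b + 1 ≤ A' ∧ χ (cn x s (b + 1) m) ≠ χ (cn x s b m) := by
    by_contra hc
    push Not at hc
    have : ∀ j, A ≤ j → j ≤ A' → χ (cn x s j m) = χ (cn x s A m) := by
      intro j hj
      induction j, hj using Nat.le_induction with
      | base => exact fun _ => rfl
      | succ j hj ih => exact fun h => (hc j hj h).trans (ih (by omega))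
    exact hne ((ind h2m eA.le (eA ▸ hle) hx (fun _ _ => rfl) eA).trans
      ((this A' hA le_rfl).symm.trans (ind h2m (eA' ▸ hle) eA'.ge hx' ho.symm eA').symm))
  refine ⟨m, b, χ (cn x s b m), fun c hc ⟨w, hw⟩ => ?_⟩
  set c₀ := χ (cn x s b m)
  set a := bis c c₀ b m with ha
  have inv : ∀ n, x s ≤ a n / 2 ^ (m + n) ∧ ((a n + 1 : ℕ) : ℝ) / 2 ^ (m + n) ≤ x' s ∧
      χ (cn x s (a n) (m + n)) = c₀ ∧ χ (cn x s (a n + 1) (m + n)) ≠ c₀ := by
    intro n
    induction n with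
    | zero =>
      refine ⟨?_, ?_, rfl, b3⟩
      · rw [eA]; change _ ≤ (b : ℝ) / 2 ^ m; gcongr
      · rw [eA']; change ((b + 1 : ℕ) : ℝ) / 2 ^ m ≤ _; gcongr
    | succ n ih =>
      obtain ⟨i1, i2, i3, i4⟩ := ih
      have e0 : ((2 * a n : ℕ) : ℝ) / 2 ^ (m + n + 1) = a n / 2 ^ (m + n) := by
        push_cast; field_simp; ring
      have e2 : ((2 * a n + 1 + 1 : ℕ) : ℝ) / 2 ^ (m + n + 1) = (a n + 1 : ℕ) / 2 ^ (m + n) := by
        push_cast; field_simp; ring
      have l1 : ((2 * a n : ℕ) : ℝ) / 2 ^ (m + n + 1) ≤ (2 * a n + 1 : ℕ) / 2 ^ (m + n + 1) := by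
        gcongr; omega
      have l2 : ((2 * a n + 1 : ℕ) : ℝ) / 2 ^ (m + n + 1) ≤
          (2 * a n + 1 + 1 : ℕ) / 2 ^ (m + n + 1) := by
        gcongr; omega
      have hmid := hc (2 * a n + 1) (m + n + 1) (leg (by omega) (by linarith) (by linarith))
      have es : a (n + 1) = _ := bis_succ c c₀ b m n
      rw [← ha, hmid] at es
      rw [← Nat.add_assoc]
      split_ifs at es with h
      · rw [es]
        refine ⟨by linarith, by linarith, h, ?_⟩
        rwa [ind (a := a n + 1) (k := m + n) (by omega) (by linarith) i2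
          (leg (by omega) (by linarith) (by linarith)) (mk_out _ _ _ _)
          ((mk_self _ _ _ _).trans e2)]
      · rw [es]
        refine ⟨by linarith, by linarith, ?_, h⟩
        rwa [ind (a := a n) (k := m + n) (by omega) i1 (by linarith)
          (leg (by omega) (by linarith) (by linarith)) (mk_out _ _ _ _)
          ((mk_self _ _ _ _).trans e0)]
  obtain ⟨r, hr⟩ := (steps_bis c c₀ b m).exists_real m
  rw [← ha] at hr
  have t0 : Tendsto (fun n : ℕ => (1 : ℝ) / 2 ^ (m + n)) atTop (𝓝 0) :=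
    tendsto_const_nhds.div_atTop ((tendsto_pow_atTop_atTop_of_one_lt one_lt_two).comp
      ((tendsto_add_atTop_nat m).congr fun n => Nat.add_comm _ _))
  have t1 : Tendsto (fun n => (a n : ℝ) / 2 ^ (m + n)) atTop (𝓝 r) := by
    refine tendsto_of_tendsto_of_tendsto_of_le_of_le (by simpa using t0.const_sub r)
      tendsto_const_nhds (fun n => ?_) fun n => (hr n).1
    have := (hr n).2
    rw [add_div] at this
    simp only [← one_div]
    linarith
  have t2 : Tendsto (fun n => ((a n + 1 : ℕ) : ℝ) / 2 ^ (m + n)) atTop (𝓝 r) := by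
    simpa [add_div] using t1.add t0
  have l0 : ∀ n, (a n : ℝ) / 2 ^ (m + n) ≤ ((a n + 1 : ℕ) : ℝ) / 2 ^ (m + n) := fun n => by
    gcongr; omega
  let g : ℕ × ℕ → ℕ := fun c => if c.1 = 1 then a c.2 / 2 ^ m else if c.1 = 0 then w c.2 else 0
  have hg : ∀ c : ℕ × ℕ, 2 ≤ c.1 → g c = 0 := fun c hc => by
    simp only [g]
    rw [if_neg (by omega), if_neg (by omega)]
  have lu : ∀ n, Leg (mk x s (a n / 2 ^ (m + n)) (gap (a n) (m + n) g n)) := fun n =>
    leg_mk hx hx' ho (by omega) (inv n).1 ((l0 n).trans (inv n).2.1) hg n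
  have lu' : ∀ n, Leg (mk x s ((a n + 1 : ℕ) / 2 ^ (m + n)) (gap (a n + 1) (m + n) g n)) :=
    fun n => leg_mk hx hx' ho (by omega) ((inv n).1.trans (l0 n)) (inv n).2.1 hg n
  refine (H _ _ (mk x s r g) (fun t n => ?_) lu lu' (tendsto_mk x s m g t1)
    (tendsto_mk x s (a := fun n => a n + 1) m g t2)).elim fun n e => ?_
  swap
  · rw [ind (by omega) (inv n).1 ((l0 n).trans (inv n).2.1) (lu n) (mk_out _ _ _ _)
      (mk_self _ _ _ _), ind (by omega) ((inv n).1.trans (l0 n)) (inv n).2.1 (lu' n)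
      (mk_out _ _ _ _) (mk_self _ _ _ _), (inv n).2.2.1] at e
    exact (inv n).2.2.2 e.symm
  · by_cases ht : s <:+ t
    · rcases eq_or_ne t s with rfl | hne
      · refine Or.inr (Or.inr ⟨fun j => a j / 2 ^ m, w, hw n, fun j _ => ?_⟩)
        simp only [mk_child, mk_self, g]
        refine ⟨by simp, by simp, ?_⟩
        have h1 := floor_err (a j) (2 ^ m) (by positivity)
        have h2 : ((a j / 2 ^ m : ℕ) : ℝ) ≤ a j / (2 ^ m : ℕ) := Nat.cast_div_le
        have h3 : (a j : ℝ) / (2 ^ m : ℕ) ≤ 2 ^ j * r := by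
          calc (a j : ℝ) / (2 ^ m : ℕ) = 2 ^ j * (a j / 2 ^ (m + j)) := by
                push_cast; field_simp; ring
            _ ≤ _ := by gcongr; exact (hr j).1
        have h4 : 2 ^ j * r ≤ (a j : ℝ) / (2 ^ m : ℕ) + 1 / 2 ^ m := by
          calc 2 ^ j * r ≤ 2 ^ j * ((a j + 1) / 2 ^ (m + j)) := by gcongr; exact (hr j).2
            _ = _ := by push_cast; field_simp; ring
        have h5 : (1 : ℝ) / 2 ^ m < 1 := by
          rw [div_lt_one (by positivity)]
          exact one_lt_pow₀ one_lt_two (by omega)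
        rw [abs_le] at h1
        rw [abs_lt]
        constructor <;> linarith [h1.2]
      · exact (mk_inside _ _ _ ht hne).2.gat T n
    · refine (outside hx hx' ho (mk_out _ _ _ _) ?_ ?_ ht).2.gat T n
      · rw [mk_self]; exact (inv 0).1.trans (hr 0).1
      · rw [mk_self]; exact (hr 0).2.trans (by exact_mod_cast (inv 0).2.1)

theorem decode {T : B → List ℕ → Bool} {χ : (Ad → ℝ) → Bool} (H : Cts T χ)
    {x₀ x₁ : Ad → ℝ} (h : Split χ [] x₀ x₁) :
    ∃ (s : Ad) (x : Ad → ℝ) (m b : ℕ) (c₀ : Bool), Leg x ∧ ∀ c : ℕ → ℕ → Bool,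
      (∀ a k, Leg (cn x s a k) → c a k = χ (cn x s a k)) →
      ¬ ∃ w : B, ∀ n, T (fun j => bis c c₀ b m j / 2 ^ m) (pre w n) = true := by
  obtain ⟨s, x, x', h1, h2⟩ := descent H h
  rcases le_total (x s) (x' s) with h3 | h3
  · obtain ⟨m, b, c₀, h4⟩ := decode_aux H h1 h2 h3
    exact ⟨s, x, m, b, c₀, h1.1, h4⟩
  · obtain ⟨m, b, c₀, h4⟩ := decode_aux H ⟨h1.2.1, h1.1, h1.2.2.1.symm, h1.2.2.2.symm⟩
      (fun c u u' ho => h2 c u u' (ho.trans h1.2.2.1.symm)) h3
    exact ⟨s, x', m, b, c₀, h1.2.1, h4⟩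

end Pool.Agent.Lib.MP_7511ee_lc
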