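import Pool.Agent.Shared.Type2.Defs

/-!
Computable metric spaces, oracle-computable homeomorphisms, categoricity of Baire space.
-/

namespace Pool.Agent.Lib.MP_7511ee_lc

open Pool.Agent.Shared.Type2

/-- A computable metric space, given together with its completion `X`: a dense sequence `c` of a
complete metric space whose mutual distances are uniformly computable reals. -/
structure CMS : Type 1 where
  X : Type
  [ms : MetricSpace X]
  [cs : CompleteSpace X]
  c : ℕ → X
  dense : DenseRange c
  comp : ∃ g : ℕ × ℕ × ℕ → ℕ, Computable g ∧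
    ∀ i j k : ℕ, |dist (c i) (c j) - (g (i, j, k) : ℝ) / 2 ^ k| ≤ 1 / 2 ^ k

attribute [instance] CMS.ms CMS.cs

/-- `p` is a fast Cauchy name of the point `x`. -/
def IsName (M : CMS) (p : ℕ → ℕ) (x : M.X) : Prop := ∀ k : ℕ, dist (M.c (p k)) x < 1 / 2 ^ k

/-- Some program, with the oracle `α` and a name of `x`, computes a name of `h x`. -/
def Realized (α : ℕ → ℕ) (M N : CMS) (h : M.X → N.X) : Prop :=
  ∃ e : OCode, ∀ (x : M.X) (p : ℕ → ℕ), IsName M p x →
    ∃ q : ℕ → ℕ, IsName N q (h x) ∧ ∀ k : ℕ, q k ∈ e.eval (jn α p : ℕ → ℕ) k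

/-- Baire space is `α`-categorical; for `strict = true` only presentations without repeated
points are considered, for `strict = false` all presentations. -/
def BaireCategorical (strict : Bool) (α : ℕ → ℕ) : Prop :=
  ∀ M N : CMS, (strict = true → Function.Injective M.c ∧ Function.Injective N.c) →
    Nonempty (M.X ≃ₜ (ℕ → ℕ)) → Nonempty (N.X ≃ₜ (ℕ → ℕ)) →
      ∃ h : M.X ≃ₜ N.X, Realized α M N h ∧ Realized α N M h.symm

end Pool.Agent.Lib.MP_7511ee_lc
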