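import Pool.Agent.Shared.Type2.Normal

/-!
A nonempty zero-dimensional Polish space times Baire space is Baire space.
-/

namespace Pool.Agent.Lib.MP_7511ee_lc

open Pool.Agent.Shared.Type2 Filter Topology TopologicalSpace

theorem lc_coord (n : ℕ) : IsLocallyConstant fun w : B => w n :=
  (IsLocallyConstant.iff_continuous _).2 (continuous_apply n)

theorem lc_pre (n : ℕ) : IsLocallyConstant fun w : B => pre w n := by
  induction n with
  | zero => exact IsLocallyConstant.const []
  | succ n ih =>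
    simp only [pre_succ]
    exact ih.comp₂ (lc_coord n) fun l k => l ++ [k]

/-- Clopen sets form a base when the space embeds in a power of the line with all coordinates
avoiding a dense set. -/
theorem clopen_base {X I : Type} [TopologicalSpace X] {π : X → I → ℝ} (hπ : IsInducing π)
    {Z : Set ℝ} (hZ : Dense Z) (h : ∀ x i, π x i ∉ Z) (x : X) (U : Set X) (hU : U ∈ 𝓝 x) :
    ∃ W, IsClopen W ∧ x ∈ W ∧ W ⊆ U := by
  let C : Filter X :=
    { sets := {U | ∃ W, IsClopen W ∧ x ∈ W ∧ W ⊆ U}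
      univ_sets := ⟨Set.univ, isClopen_univ, trivial, le_rfl⟩
      sets_of_superset := fun ⟨W, h1, h2, h3⟩ h4 => ⟨W, h1, h2, h3.trans h4⟩
      inter_sets := fun ⟨W, h1, h2, h3⟩ ⟨W', h1', h2', h3'⟩ =>
        ⟨W ∩ W', h1.inter h1', ⟨h2, h2'⟩, Set.inter_subset_inter h3 h3'⟩ }
  have : C ≤ 𝓝 x := by
    rw [hπ.nhds_eq_comap, ← tendsto_iff_comap, tendsto_pi_nhds]
    intro i V hV
    obtain ⟨a, b, hab, hs⟩ := mem_nhds_iff_exists_Ioo_subset.1 hV
    obtain ⟨a', ha, ha'⟩ := hZ.exists_between hab.1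
    obtain ⟨b', hb, hb'⟩ := hZ.exists_between hab.2
    have hc : Continuous fun z => π z i := (continuous_apply i).comp hπ.continuous
    refine ⟨(fun z => π z i) ⁻¹' Set.Ioo a' b', ⟨?_, isOpen_Ioo.preimage hc⟩, ⟨ha'.2, hb'.1⟩,
      fun z hz => hs ⟨ha'.1.trans hz.1, hz.2.trans hb'.2⟩⟩
    have : (fun z => π z i) ⁻¹' Set.Ioo a' b' = (fun z => π z i) ⁻¹' Set.Icc a' b' := by
      ext z
      exact ⟨fun hz => ⟨hz.1.le, hz.2.le⟩, fun hz =>
        ⟨lt_of_le_of_ne hz.1 fun e => h z i ((show a' = π z i from e) ▸ ha),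
          lt_of_le_of_ne hz.2 fun e => h z i ((show π z i = b' from e) ▸ hb)⟩⟩
    rw [this]
    exact isClosed_Icc.preimage hc
  exact this hU

theorem exists_closedEmbedding {X : Type} [MetricSpace X] [CompleteSpace X] [SeparableSpace X]
    [Nonempty X] (h : ∀ (x : X) (U : Set X), U ∈ 𝓝 x → ∃ W, IsClopen W ∧ x ∈ W ∧ W ⊆ U) :
    ∃ φ : X → B, IsClosedEmbedding φ := by
  classical
  have key : ∀ n : ℕ, ∃ c : X → ℕ, IsLocallyConstant c ∧
      ∀ x x', c x = c x' → dist x x' < 2 * (1 / 2) ^ n := by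
    intro n
    choose W h1 h2 h3 using fun x : X => h x _ (Metric.ball_mem_nhds x
      (show (0 : ℝ) < (1 / 2) ^ n by positivity))
    obtain ⟨s, hs, hs'⟩ := TopologicalSpace.countable_cover_nhds fun x => (h1 x).isOpen.mem_nhds (h2 x)
    have hne : s.Nonempty := by
      obtain ⟨x⟩ := ‹Nonempty X›
      obtain ⟨i, hi, -⟩ := Set.mem_iUnion₂.1 (hs'.symm ▸ Set.mem_univ x)
      exact ⟨i, hi⟩
    obtain ⟨u, rfl⟩ := hs.exists_eq_range hne
    have hex : ∀ x, ∃ k, x ∈ W (u k) := fun x => by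
      obtain ⟨i, ⟨k, rfl⟩, hi⟩ := Set.mem_iUnion₂.1 (hs'.symm ▸ Set.mem_univ x)
      exact ⟨k, hi⟩
    refine ⟨fun x => Nat.find (hex x), (IsLocallyConstant.iff_eventually_eq _).2 fun x => ?_,
      fun x x' e => ?_⟩
    · have e1 : ∀ᶠ z in 𝓝 x, z ∈ W (u (Nat.find (hex x))) :=
        (h1 _).isOpen.mem_nhds (Nat.find_spec (hex x))
      have e2 : ∀ᶠ z in 𝓝 x, ∀ k ∈ Finset.range (Nat.find (hex x)), z ∉ W (u k) :=
        (Finset.eventually_all _).2 fun k hk =>
          (h1 _).isClosed.isOpen_compl.mem_nhds (Nat.find_min (hex x) (Finset.mem_range.1 hk))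
      filter_upwards [e1, e2] with z e1 e2
      exact (Nat.find_eq_iff _).2 ⟨e1, fun k hk => e2 k (Finset.mem_range.2 hk)⟩
    · have e1 := h3 _ (Nat.find_spec (hex x))
      have e2 := h3 _ (Nat.find_spec (hex x'))
      simp only at e
      rw [e] at e1
      have := dist_triangle_right x x' (u (Nat.find (hex x')))
      rw [Metric.mem_ball] at e1 e2
      linarith
  choose c hc hc' using key
  have small : ∀ ε > (0 : ℝ), ∃ n : ℕ, 2 * (1 / 2) ^ n < ε := fun ε hε => by
    obtain ⟨n, hn⟩ := exists_pow_lt_of_lt_one (half_pos hε) (show (1 / 2 : ℝ) < 1 by norm_num)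
    exact ⟨n, by linarith⟩
  have hcont : Continuous fun x n => c n x := continuous_pi fun n => (hc n).continuous
  refine ⟨fun x n => c n x, IsClosedEmbedding.of_continuous_injective_isClosedMap hcont
    (fun x x' e => eq_of_forall_dist_le fun ε hε => ?_) fun s hs => ?_⟩
  · obtain ⟨n, hn⟩ := small ε hε
    exact ((hc' n x x' (congrFun e n)).trans hn).le
  · refine isClosed_iff_clusterPt.2 fun w hw => ?_
    have hne : (comap (fun x n => c n x) (𝓝 w) ⊓ 𝓟 s).NeBot := by
      rw [← map_neBot_iff (fun x n => c n x), Filter.push_pull', map_principal]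
      exact hw
    have hca : Cauchy (comap (fun x n => c n x) (𝓝 w) ⊓ 𝓟 s) := by
      refine Metric.cauchy_iff.2 ⟨hne, fun ε hε => ?_⟩
      obtain ⟨n, hn⟩ := small ε hε
      refine ⟨{x | c n x = w n}, mem_inf_of_left (preimage_mem_comap (t := {v : B | v n = w n})
        ((lc_coord n).eventually_eq w)), fun x hx y hy => ?_⟩
      exact (hc' n x y (hx.trans hy.symm)).trans hn
    obtain ⟨x, hx⟩ := CompleteSpace.complete hca
    refine ⟨x, hs.mem_of_tendsto (f := id) (b := comap (fun x n => c n x) (𝓝 w) ⊓ 𝓟 s) hx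
      (mem_inf_of_right (mem_principal_self s)), ?_⟩
    exact tendsto_nhds_unique (hcont.continuousAt.tendsto.mono_left hx)
      (tendsto_comap.mono_left inf_le_left)

theorem prod_homeo {F : Set B} (hF : IsClosed F) (hne : F.Nonempty) :
    Nonempty (B ≃ₜ F × B) := by
  classical
  let C : List ℕ → Set ℕ := fun s => {k | ∃ w ∈ F, pre w (s.length + 1) = s ++ [k]}
  have key : ∀ s : List ℕ, ∃ g : ℕ → ℕ × ℕ, (C s).Nonempty →
      Function.Injective g ∧ ∀ p, p ∈ Set.range g ↔ p.1 ∈ C s := by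
    intro s
    by_cases h : (C s).Nonempty
    · have := h.to_subtype
      obtain ⟨e⟩ : Nonempty (ℕ ≃ C s × ℕ) := by
        obtain ⟨e⟩ := nonempty_denumerable (C s × ℕ)
        exact ⟨(Denumerable.eqv _).symm⟩
      refine ⟨fun n => ((e n).1, (e n).2), fun _ => ⟨fun a b hab => e.injective ?_,
        fun p => ⟨?_, fun hp => ?_⟩⟩⟩
      · have := Prod.ext_iff.1 hab
        exact Prod.ext (Subtype.ext this.1) this.2
      · rintro ⟨n, rfl⟩
        exact (e n).1.2
      · exact ⟨e.symm (⟨p.1, hp⟩, p.2), by simp⟩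
    · exact ⟨fun _ => (0, 0), fun h' => absurd h' h⟩
  choose g hg using key
  let st : B → ℕ → List ℕ := fun u n => Nat.rec [] (fun n s => s ++ [(g s (u n)).1]) n
  have st1 : ∀ u n, st u (n + 1) = st u n ++ [(g (st u n) (u n)).1] := fun _ _ => rfl
  let Θ : B → B × B := fun u => (fun n => (g (st u n) (u n)).1, fun n => (g (st u n) (u n)).2)
  let Ψ : B × B → B := fun p n => Function.invFun (g (pre p.1 n)) (p.1 n, p.2 n)
  have hpre : ∀ u n, pre (Θ u).1 n = st u n := by
    intro u n
    induction n with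
    | zero => rfl
    | succ n ih => rw [pre_succ, ih]
  have hlen : ∀ (w : B) n, (pre w n).length = n := fun w n => by simp [pre]
  have hC : ∀ w ∈ F, ∀ n, w n ∈ C (pre w n) := fun w hw n => ⟨w, hw, by rw [hlen, pre_succ]⟩
  have hin : ∀ u n, ∃ w ∈ F, pre w n = st u n := by
    intro u n
    induction n with
    | zero => exact ⟨_, hne.some_mem, rfl⟩
    | succ n ih =>
      obtain ⟨w, hw, e⟩ := ih
      obtain ⟨w', hw', e'⟩ := ((hg (st u n) ⟨_, e ▸ hC w hw n⟩).2 _).1 ⟨u n, rfl⟩
      rw [← e, hlen, e] at e'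
      exact ⟨w', hw', e'⟩
  have hinj : ∀ u n, Function.Injective (g (st u n)) := fun u n => by
    obtain ⟨w, hw, e⟩ := hin u n
    exact (hg _ ⟨_, e ▸ hC w hw n⟩).1
  have hl : Function.LeftInverse Ψ Θ := fun u => funext fun n => by
    change Function.invFun (g (pre (Θ u).1 n)) (g (st u n) (u n)) = u n
    rw [hpre]
    exact Function.leftInverse_invFun (hinj u n) _
  have hst : ∀ n, IsLocallyConstant fun u => st u n := by
    intro n
    induction n with
    | zero => exact IsLocallyConstant.const []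
    | succ n ih => exact ih.comp₂ (lc_coord n) fun s k => s ++ [(g s k).1]
  have hΘ : Continuous Θ :=
    (continuous_pi fun n => ((hst n).comp₂ (lc_coord n) fun s k => (g s k).1).continuous).prodMk
      (continuous_pi fun n => ((hst n).comp₂ (lc_coord n) fun s k => (g s k).2).continuous)
  have hΨ : Continuous Ψ := continuous_pi fun n =>
    (((lc_pre n).comp_continuous continuous_fst).comp₂
      (((lc_coord n).comp_continuous continuous_fst).prodMk
        ((lc_coord n).comp_continuous continuous_snd))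
      fun s p => Function.invFun (g s) p).continuous
  have hr : Set.range Θ = F ×ˢ Set.univ := by
    ext p
    constructor
    · rintro ⟨u, rfl⟩
      refine ⟨?_, trivial⟩
      choose w hw e using hin u
      refine hF.mem_of_tendsto (f := w) (b := atTop) (tendsto_pi_nhds.2 fun n => ?_)
        (Eventually.of_forall hw)
      refine tendsto_const_nhds.congr' ?_
      filter_upwards [eventually_gt_atTop n] with m hm
      rw [← pre_getD (w m) hm 0, e, ← hpre, pre_getD _ hm]
    · rintro ⟨hp, -⟩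
      have e1 : ∀ n, g (pre p.1 n) (Ψ p n) = (p.1 n, p.2 n) := fun n =>
        Function.invFun_eq (((hg _ ⟨_, hC _ hp n⟩).2 (p.1 n, p.2 n)).2 (hC _ hp n))
      have e2 : ∀ n, st (Ψ p) n = pre p.1 n := by
        intro n
        induction n with
        | zero => rfl
        | succ n ih => rw [st1, ih, e1, pre_succ]
      exact ⟨Ψ p, Prod.ext (funext fun n => by simp only [Θ, e2, e1])
        (funext fun n => by simp only [Θ, e2, e1])⟩
  exact ⟨((hl.isEmbedding hΨ hΘ).toHomeomorph.trans (Homeomorph.setCongr hr)).trans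
    ((Homeomorph.Set.prod F Set.univ).trans
      ((Homeomorph.refl F).prodCongr (Homeomorph.Set.univ B)))⟩

theorem prod_baire {X : Type} [MetricSpace X] [CompleteSpace X] [SeparableSpace X]
    [Nonempty X] (h : ∀ (x : X) (U : Set X), U ∈ 𝓝 x → ∃ W, IsClopen W ∧ x ∈ W ∧ W ⊆ U) :
    Nonempty (X × B ≃ₜ B) := by
  obtain ⟨φ, hφ⟩ := exists_closedEmbedding h
  obtain ⟨e⟩ := prod_homeo hφ.isClosed_range (Set.range_nonempty φ)
  exact ⟨(hφ.isEmbedding.toHomeomorph.prodCongr (Homeomorph.refl B)).trans e.symm⟩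

end Pool.Agent.Lib.MP_7511ee_lc
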