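import Pool.Agent.Lib.MP_7511ee_lc.Avoid
import Pool.Agent.Lib.MP_7511ee_lc.Topo

/-!
The computable enumeration of legal configurations and the space attached to a singleton.
-/

namespace Pool.Agent.Lib.MP_7511ee_lc

open Pool.Agent.Shared.Type2 Encodable Filter Topology

/-- Codes of finite configurations. -/
abbrev Cf : Type := List (Ad × ℕ × ℕ)

/-- Lookup. -/
def get (q : Cf) (t : Ad) : ℕ × ℕ := q.foldr (fun e r => if e.1 = t then e.2 else r) (0, 0)

@[fun_prop] theorem TD_get {X : Type} [Rep X] {q : X → Cf} {t : X → Ad} (hq : TD q) (ht : TD t) :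
    TD fun x => get (q x) (t x) := by
  unfold get; fun_prop

/-- The configuration with a given code. -/
noncomputable def val (q : Cf) (t : Ad) : ℝ := (get q t).1 / 2 ^ (get q t).2

theorem val_nil : val [] = fun _ => 0 := by
  funext t; simp [val, get]

theorem val_cons (s : Ad) (a m : ℕ) (q : Cf) :
    val ((s, a, m) :: q) = Function.update (val q) s (a / 2 ^ m) := by
  funext t
  rcases eq_or_ne t s with rfl | h
  · simp [val, get]
  · rw [Function.update_of_ne h]
    simp [val, get, h.symm]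

theorem val_ne {q : Cf} {t : Ad} (h : val q t ≠ 0) : ∃ e ∈ q, e.1 = t := by
  induction q with
  | nil => simp [val_nil] at h
  | cons e q ih =>
    obtain ⟨s, a, m⟩ := e
    rcases eq_or_ne t s with rfl | hne
    · exact ⟨_, List.mem_cons_self, rfl⟩
    · rw [val_cons, Function.update_of_ne hne] at h
      obtain ⟨e, h1, h2⟩ := ih h
      exact ⟨e, List.mem_cons_of_mem _ h1, h2⟩

theorem exists_val {x : Ad → ℝ} (h1 : {t | x t ≠ 0}.Finite)
    (h2 : ∀ t, ∃ a m : ℕ, x t = a / 2 ^ m) : ∃ q, val q = x := by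
  classical
  have : ∀ S : Finset Ad, ∃ q, ∀ t, val q t = if t ∈ S then x t else 0 := by
    intro S
    induction S using Finset.induction_on with
    | empty => exact ⟨[], fun t => by simp [val_nil]⟩
    | insert s S _ ih =>
      obtain ⟨q, hq⟩ := ih
      obtain ⟨a, m, e⟩ := h2 s
      refine ⟨(s, a, m) :: q, fun t => ?_⟩
      rw [val_cons]
      rcases eq_or_ne t s with rfl | hne
      · simp [e]
      · simp [hne, hq]
  obtain ⟨q, hq⟩ := this h1.toFinset
  refine ⟨q, funext fun t => ?_⟩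
  rw [hq]
  split_ifs with h
  · rfl
  · simpa using (show x t = 0 by simpa using h).symm

/-- The test for the first condition. -/
def b1 (q : Cf) (t : Ad) : Bool :=
  decide ((t.getD 0 (0, 0)).1 < 2) || decide ((get q t).1 = 0) ||
    decide ((get q t.tail).1 * 2 ^ (t.getD 0 (0, 0)).1 = (t.getD 0 (0, 0)).2 * 2 ^ (get q t.tail).2)

/-- The test for the second condition. -/
def b2 (q : Cf) (s : Ad) : Bool :=
  decide ((get q s).1 % 2 ^ (get q s).2 = 0) || q.any fun e =>
    decide (e.1.tail = s) && decide (2 ≤ (e.1.getD 0 (0, 0)).1) &&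
      decide (2 ^ (get q e.1).2 < 2 * (get q e.1).1) &&
        decide (2 * (get q e.1).1 < 3 * 2 ^ (get q e.1).2)

/-- The legality test. -/
def chk (q : Cf) : Bool := q.all fun e => b1 q e.1 && b2 q e.1

@[fun_prop] theorem TD_chk {X : Type} [Rep X] {q : X → Cf} (hq : TD q) :
    TD fun x => chk (q x) := by
  unfold chk b1 b2; fun_prop

theorem win_iff (a m : ℕ) : Win (a / 2 ^ m) ↔ 2 ^ m < 2 * a ∧ 2 * a < 3 * 2 ^ m := by
  unfold Win
  have h : (0 : ℝ) < 2 ^ m := by positivity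
  rw [abs_lt, ← mul_div_assoc, lt_sub_iff_add_lt, sub_lt_iff_lt_add, lt_div_iff₀ h, div_lt_iff₀ h]
  norm_num
  norm_cast

theorem b1_iff (q : Cf) (c : ℕ × ℕ) (s : Ad) : b1 q (c :: s) = true ↔
    (2 ≤ c.1 → val q (c :: s) ≠ 0 → val q s = c.2 / 2 ^ c.1) := by
  have e1 : val q (c :: s) = 0 ↔ (get q (c :: s)).1 = 0 := by simp [val]
  have e2 : val q s = c.2 / 2 ^ c.1 ↔ (get q s).1 * 2 ^ c.1 = c.2 * 2 ^ (get q s).2 := by
    rw [val, div_eq_div_iff (by positivity) (by positivity)]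
    norm_cast
  simp only [b1, List.getD_cons_zero, List.tail_cons, Bool.or_eq_true, decide_eq_true_eq, ne_eq,
    e1, e2, ← not_lt]
  tauto

theorem b2_iff (q : Cf) (s : Ad) : b2 q s = true ↔ K2 (val q) s := by
  simp only [b2, Bool.or_eq_true, decide_eq_true_eq, List.any_eq_true, Bool.and_eq_true, K2]
  refine or_congr ?_ ⟨?_, ?_⟩
  · rw [← Nat.dvd_iff_mod_eq_zero]
    refine exists_congr fun k => ?_
    rw [val, div_eq_iff (by positivity), mul_comm]
    norm_cast
  · rintro ⟨⟨t, v⟩, -, ⟨⟨rfl, h1⟩, h2⟩, h3⟩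
    cases t with
    | nil => simp at h1
    | cons c t => exact ⟨c, h1, (win_iff _ _).2 ⟨h2, h3⟩⟩
  · rintro ⟨c, h1, h2⟩
    obtain ⟨e, h3, h4⟩ := val_ne (q := q) (t := c :: s) fun h => by simp [Win, h] at h2
    have := (win_iff _ _).1 h2
    exact ⟨e, h3, by rw [h4]; exact ⟨⟨⟨rfl, h1⟩, this.1⟩, this.2⟩⟩

theorem chk_iff (q : Cf) : chk q = true ↔ Leg (val q) := by
  simp only [chk, List.all_eq_true, Bool.and_eq_true]
  constructor
  · intro h
    refine ⟨(List.finite_toSet (q.map Prod.fst)).subset fun t ht => ?_, fun t => ⟨_, _, rfl⟩,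
      fun s c h1 h2 => ?_, fun s => ?_⟩
    · obtain ⟨e, h1, h2⟩ := val_ne ht
      exact List.mem_map.2 ⟨e, h1, h2⟩
    · obtain ⟨e, h3, h4⟩ := val_ne h2
      exact (b1_iff q c s).1 (h4 ▸ (h e h3).1) h1 h2
    · by_cases h1 : val q s = 0
      · exact Or.inl ⟨0, by simp [h1]⟩
      · obtain ⟨e, h3, h4⟩ := val_ne h1
        exact (b2_iff q s).1 (h4 ▸ (h e h3).2)
  · intro h e _
    refine ⟨?_, (b2_iff _ _).2 (h.k2 _)⟩
    cases e.1 with
    | nil => simp [b1]
    | cons c s => exact (b1_iff q c s).2 (h.k1 s c)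

/-- The enumeration of codes of legal configurations. -/
def cf (i : ℕ) : Cf := cond (chk (un Cf i)) (un Cf i) []

theorem leg_cf (i : ℕ) : Leg (val (cf i)) := by
  refine (chk_iff _).1 ?_
  unfold cf
  cases h : chk (un Cf i)
  · rfl
  · exact h

theorem cf_encode {q : Cf} (h : Leg (val q)) : cf (encode q) = q := by
  simp [cf, un_encode, (chk_iff q).2 h]

theorem range_cf : (Set.range fun i => val (cf i)) = {x | Leg x} := by
  ext x
  constructor
  · rintro ⟨i, rfl⟩; exact leg_cf i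
  · intro h
    obtain ⟨q, rfl⟩ := exists_val h.fin h.dy
    exact ⟨encode q, by simp only [cf_encode h]⟩

/-- The basic open conditions. -/
def LL (T : B → List ℕ → Bool) (n : Ad × ℕ) (k : ℕ × (ℕ × ℕ) × List ℕ × List ℕ) :
    List (Ad × ℕ × ℕ × ℕ) :=
  if k.1 = 0 then [(n.1, n.2, 2 ^ n.2 * k.2.1.1, 1)]
  else if k.1 = 1 then [((k.2.1.1 + 2, k.2.1.2) :: n.1, 1, 2, 1)]
  else cond (T (Sig.ext k.2.2.1) (pre (Sig.ext k.2.2.2) n.2))
    ((List.range n.2).flatMap fun j => [((1, j) :: n.1, 1, 2 * ap (Sig.ext k.2.2.1) j, 1),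
      ((0, j) :: n.1, 1, 2 * ap (Sig.ext k.2.2.2) j, 1), (n.1, j, ap (Sig.ext k.2.2.1) j, 2)])
    [(n.1, 0, 0, 0)]

theorem TD_LL {T : B → List ℕ → Bool} (hT : TD fun p : B × List ℕ => T p.1 p.2) :
    TD fun a : (Ad × ℕ) × ℕ × (ℕ × ℕ) × List ℕ × List ℕ => LL T a.1 a.2 := by
  have : TD fun a : (Ad × ℕ) × ℕ × (ℕ × ℕ) × List ℕ × List ℕ =>
      T (Sig.ext a.2.2.2.1) (pre (Sig.ext a.2.2.2.2) a.1.2) :=
    hT.comp' (f := fun a : (Ad × ℕ) × ℕ × (ℕ × ℕ) × List ℕ × List ℕ =>
      (Sig.ext a.2.2.2.1, pre (Sig.ext a.2.2.2.2) a.1.2)) (by fun_prop)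
  unfold LL
  exact TD.ite' (by fun_prop) (by fun_prop) (TD.ite' (by fun_prop) (by fun_prop)
    (this.cond' (by fun_prop) (by fun_prop)))

theorem LL_iff {T : B → List ℕ → Bool}
    (hl : ∀ x x' σ, (∀ i < σ.length, x i = x' i) → T x σ = T x' σ) (x : Ad → ℝ) (n : Ad × ℕ) :
    (∃ k, ∀ e ∈ LL T n k, Bas x e) ↔ Gat T x n.1 n.2 := by
  obtain ⟨s, n⟩ := n
  constructor
  · rintro ⟨⟨i, c, l, l'⟩, h⟩
    unfold LL at h
    split_ifs at h with h0 h1
    · exact Or.inl ⟨c.1, by simpa [Bas] using h⟩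
    · exact Or.inr (Or.inl ⟨(c.1 + 2, c.2), by simp, by simpa [Bas, Win] using h⟩)
    · cases hT : T (Sig.ext l) (pre (Sig.ext l') n)
      · simp [hT, Bas] at h
        exact absurd h (not_lt.2 (abs_nonneg _))
      · refine Or.inr (Or.inr ⟨_, _, hT, fun j hj => ?_⟩)
        simp only [hT, cond_true, List.mem_flatMap, List.mem_range, forall_exists_index,
          and_imp] at h
        simpa [Bas] using fun e => h e j hj
  · rintro (⟨k, h⟩ | ⟨c, h1, h⟩ | ⟨a, w, h1, h⟩)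
    · exact ⟨(0, (k, 0), [], []), by simpa [LL, Bas] using h⟩
    · refine ⟨(1, (c.1 - 2, c.2), [], []), ?_⟩
      simpa [LL, Bas, Win, Nat.sub_add_cancel h1] using h
    · refine ⟨(2, (0, 0), pre a n, pre w n), ?_⟩
      have e1 : T (Sig.ext (pre a n)) (pre (Sig.ext (pre w n)) n) = true := by
        rw [pre_congr fun i hi => Sig.ext_pre w hi, hl _ a _ fun i hi =>
          Sig.ext_pre a (by simpa [pre] using hi), h1]
      intro e he
      simp only [LL, e1, cond_true, List.mem_flatMap, List.mem_range, OfNat.ofNat_ne_zero,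
        OfNat.ofNat_ne_one, if_false, ap_def] at he
      obtain ⟨j, hj, he⟩ := he
      rw [Sig.ext_pre a hj, Sig.ext_pre w hj] at he
      have := h j hj
      simp only [List.mem_cons, List.not_mem_nil, or_false] at he
      rcases he with rfl | rfl | rfl
      · simpa [Bas] using this.1
      · simpa [Bas] using this.2.1
      · simpa [Bas] using this.2.2

theorem val_cn {q : Cf} {x : Ad → ℝ} {s : Ad} (h : val q = mk x s ((0 : ℕ) / 2 ^ 0) fun _ => 0)
    (a k : ℕ) : val ((s, a, k) :: ((k, a) :: s, 1, 0) :: q) = cn x s a k := by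
  rw [val_cons, val_cons, h]
  funext t
  unfold cn
  rcases eq_or_ne t s with rfl | hne
  · simp [mk_self]
  rw [Function.update_of_ne hne]
  rcases eq_or_ne t ((k, a) :: s) with rfl | hne'
  · simp [mk_child, gap]
  rw [Function.update_of_ne hne']
  by_cases ht : s <:+ t
  · rcases mk_cases ht hne with ⟨c, rfl⟩ | h'
    · have : c ≠ (k, a) := fun e => hne' (by rw [e])
      simp [mk_child, gap, this]
    · rw [h', h']
  · rw [mk_out _ _ _ _ t ht, mk_out _ _ _ _ t ht]

theorem exists_space {y : B} (hy : Sing y) : ∃ (M : CMS) (i₀ i₁ : ℕ),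
    Nonempty (M.X × B ≃ₜ B) ∧ M.c i₀ ≠ M.c i₁ ∧ ∀ (χ : M.X → Bool) (α : B), Continuous χ →
      χ (M.c i₀) ≠ χ (M.c i₁) → TD (fun a : Pt1 α × ℕ => χ (M.c a.2)) → Red y α := by
  classical
  obtain ⟨T, hT, hl, hc, hA⟩ := (sig_AA hy).tree
  obtain ⟨M, π, h1, h2, h3⟩ := exists_cms (fun i => val (cf i))
    (CR.dy (a := fun a : ℕ × Ad => (get (cf a.1) a.2).1) (m := fun a => (get (cf a.1) a.2).2)
      (by unfold cf; fun_prop) (by unfold cf; fun_prop)) (LL T) (TD_LL hT)
    fun i n => (LL_iff hl _ n).2 (((leg_cf i).k2 _).gat T _)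
  simp only [range_cf, LL_iff hl] at h3
  simp only [Prod.forall] at h3
  have l0 : Leg (val []) := (chk_iff _).1 rfl
  have l1 : Leg (val [([], 1, 0)]) := (chk_iff _).1 (by decide)
  have : Nonempty M.X := ⟨M.c 0⟩
  have : TopologicalSpace.SeparableSpace M.X := ⟨⟨_, Set.countable_range _, M.dense⟩⟩
  refine ⟨M, encode ([] : Cf), encode ([([], 1, 0)] : Cf), prod_baire (clopen_base h1.isInducing
    (dense_hole y) fun z s => ?_), fun e => ?_, fun χ α hχ hne hα => ?_⟩
  · have := (h3 _).1 ⟨z, rfl⟩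
    exact avoid hl hc (fun a => (hA a).2) this.1 this.2 s
  · have := congrFun (congrArg π e) []
    rw [h2, h2, cf_encode l0, cf_encode l1] at this
    simp [val, get] at this
  let ι : (Ad → ℝ) → M.X := Function.invFun π
  have hι : ∀ z, ι (π z) = z := Function.leftInverse_invFun h1.injective
  have hι' : ∀ q, Leg (val q) → ι (val q) = M.c (encode q) := fun q hq => by
    rw [← hι (M.c (encode q)), h2, cf_encode hq]
  have hπ : ∀ x, Leg x → π (ι x) = x := fun x hx =>
    Function.invFun_eq ((h3 x).2 ⟨subset_closure hx, fun s n => (hx.k2 s).gat T n⟩)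
  have hC : Cts T fun x => χ (ι x) := by
    intro u u' x hx hu hu' t t'
    obtain ⟨z, rfl⟩ := (h3 x).2 ⟨mem_closure_of_tendsto t (Eventually.of_forall hu), hx⟩
    have key : ∀ u : ℕ → Ad → ℝ, (∀ n, Leg (u n)) → Tendsto u atTop (𝓝 (π z)) →
        ∀ᶠ n in atTop, χ (ι (u n)) = χ z := fun u hu t => by
      have : Tendsto (fun n => ι (u n)) atTop (𝓝 z) :=
        h1.isInducing.tendsto_nhds_iff.2 (t.congr fun n => (hπ _ (hu n)).symm)
      exact tendsto_pure.1 (nhds_discrete Bool ▸ (hχ.tendsto z).comp this)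
    obtain ⟨n, e, e'⟩ := ((key u hu t).and (key u' hu' t')).exists
    exact ⟨n, e.trans e'.symm⟩
  obtain ⟨s, x, m, b, c₀, hx, H⟩ := decode hC (x₀ := val []) (x₁ := val [([], 1, 0)])
    ⟨l0, l1, fun t ht => absurd List.nil_suffix ht, by simpa only [hι' _ l0, hι' _ l1] using hne⟩
  obtain ⟨q, hq⟩ := exists_val (mk_fin hx s ((0 : ℕ) / 2 ^ 0) (g := fun _ => 0) (by simp))
    (mk_dy hx s 0 0 _)
  let c : ℕ → ℕ → Bool := fun a k => χ (M.c (encode ((s, a, k) :: ((k, a) :: s, 1, 0) :: q)))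
  have H' := H c fun a k h => by
    rw [← val_cn hq] at h ⊢
    simp only [c, hι' _ h]
  refine (red_of_not_AA ((steps_bis c c₀ b m).div m) fun h => H' ((hA _).1 h)).trans
    (red_iff_TD.2 ?_)
  have hcT : TD fun p : Pt1 α × ℕ × ℕ => c p.2.1 p.2.2 :=
    hα.comp' (f := fun p : Pt1 α × ℕ × ℕ =>
      (p.1, encode ((s, p.2.1, p.2.2) :: ((p.2.2, p.2.1) :: s, 1, 0) :: q))) (by fun_prop)
  refine TD.lam' (F := fun _ j => bis c c₀ b m j / 2 ^ m) (TD.div ?_ (by fun_prop))
  refine TD.nrec' (h := fun _ n a => if c (2 * a + 1) (m + n + 1) = c₀ then 2 * a + 1 else 2 * a)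
    (by fun_prop) (by fun_prop) (TD.ite' (TD.decide_eq ?_ (by fun_prop)) (by fun_prop)
      (by fun_prop))
  exact hcT.comp' (f := fun p : (Pt1 α × ℕ) × ℕ × ℕ => (p.1.1, 2 * p.2.2 + 1, m + p.2.1 + 1))
    (by fun_prop)

end Pool.Agent.Lib.MP_7511ee_lc
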