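import Pool.Agent.Lib.MP_7511ee_lc.Reals

/-!
Computable metric spaces from effective `G_δ` sets; products; the standard copy of Baire space.
-/

namespace Pool.Agent.Lib.MP_7511ee_lc

open Pool.Agent.Shared.Type2 Encodable Filter Topology

/-- Decoding with a default value. -/
def un (Y : Type) [Primcodable Y] [Inhabited Y] (i : ℕ) : Y := (decode i : Option Y).getD default

theorem un_encode {Y : Type} [Primcodable Y] [Inhabited Y] (y : Y) : un Y (encode y) = y := by
  simp [un]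

@[fun_prop] theorem TD_un {X Y : Type} [Rep X] [Rep Y] [Primcodable Y] [Disc Y] [Inhabited Y]
    {f : X → ℕ} (hf : TD f) : TD fun x => un Y (f x) := by
  unfold un; fun_prop

theorem pi_dist {q : ℕ → ℕ → ℝ} (hq : CR fun a : ℕ × ℕ => q a.1 a.2) :
    CR fun a : ℕ × ℕ => ∑' n : ℕ, min (1 / 2 ^ n) |q a.1 n - q a.2 n| :=
  CR.tsum (F := fun b : (ℕ × ℕ) × ℕ => min (1 / 2 ^ b.2) |q b.1.1 b.2 - q b.1.2 b.2|)
    ((CR.pow (by fun_prop)).min
      ((hq.comp (f := fun b : (ℕ × ℕ) × ℕ => (b.1.1, b.2)) (by fun_prop)).abs_sub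
        (hq.comp (f := fun b : (ℕ × ℕ) × ℕ => (b.1.2, b.2)) (by fun_prop))))
    (fun _ => le_min (by positivity) (abs_nonneg _)) fun _ => min_le_left _ _

theorem exists_cms_pi (q : ℕ → ℕ → ℝ) (hq : CR fun a : ℕ × ℕ => q a.1 a.2) :
    ∃ (M : CMS) (ι : M.X → ℕ → ℝ), IsEmbedding ι ∧ (∀ i, ι (M.c i) = q i) ∧
      Set.range ι = closure (Set.range q) := by
  have hc : IsClosed (closure (Set.range q)) := isClosed_closure
  have hd : DenseRange fun i => (⟨q i, subset_closure ⟨i, rfl⟩⟩ : closure (Set.range q)) := by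
    intro x
    rw [closure_subtype, ← Set.range_comp]
    exact x.2
  let _ : MetricSpace (ℕ → ℝ) := PiCountable.metricSpace
  have : CompleteSpace (ℕ → ℝ) := Pi.complete _
  refine ⟨@CMS.mk (closure (Set.range q)) inferInstance hc.completeSpace_coe _ hd ?_,
    Subtype.val, IsEmbedding.subtypeVal, fun _ => rfl, Subtype.range_coe⟩
  obtain ⟨g, hg, H⟩ := (pi_dist hq).out
  refine ⟨g, hg, fun i j k => ?_⟩
  have := H i j k
  simp only [one_div, ← inv_pow] at this ⊢
  exact this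

theorem exists_baire : ∃ (N : CMS) (e : N.X ≃ₜ B), (∀ i, e (N.c i) = Sig.ext (un (List ℕ) i)) ∧
    (∀ (u v : N.X) (n : ℕ), dist u v < 1 / 2 ^ n → e u n = e v n) ∧
    ∀ (u v : N.X) (n : ℕ), (∀ i < n + 2, e u i = e v i) → dist u v < 1 / 2 ^ n := by
  have hd : DenseRange fun i => Sig.ext (un (List ℕ) i) := by
    intro w
    refine mem_closure_of_tendsto (f := fun n => Sig.ext (pre w n)) (b := atTop)
      (tendsto_pi_nhds.2 fun n => tendsto_const_nhds.congr' ?_)
      (Eventually.of_forall fun n => ⟨encode (pre w n), by simp only [un_encode]⟩)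
    filter_upwards [eventually_gt_atTop n] with m hm using (Sig.ext_pre w hm).symm
  have hq : CR fun a : ℕ × ℕ => ((ap (Sig.ext (un (List ℕ) a.1)) a.2 : ℕ) : ℝ) :=
    CR.nat (by fun_prop)
  let _ : MetricSpace B := PiCountable.metricSpace
  have : CompleteSpace B := Pi.complete _
  refine ⟨@CMS.mk B inferInstance inferInstance _ hd ?_, Homeomorph.refl _, fun _ => rfl,
    fun u v n h1 => ?_, fun (u v : B) n h => ?_⟩
  · obtain ⟨g, hg, H⟩ := (pi_dist (q := fun i n => (ap (Sig.ext (un (List ℕ) i)) n : ℕ)) hq).out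
    refine ⟨g, hg, fun i j k => ?_⟩
    have := H i j k
    simp only [one_div, ← inv_pow] at this ⊢
    exact this
  · rw [one_div, ← inv_pow] at h1
    have h2 := (PiCountable.dist_le_dist_pi_of_dist_lt (i := n) h1).trans_lt h1
    have h3 : (2⁻¹ : ℝ) ^ n ≤ 1 := pow_le_one₀ (by norm_num) (by norm_num)
    have h4 := h2.trans_le h3
    by_contra hne
    exact absurd h4 (not_lt.2 (Nat.pairwise_one_le_dist hne))
  · have hs := PiCountable.dist_summable (F := fun _ : ℕ => ℕ) u v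
    change ∑' i : ℕ, min (2⁻¹ ^ encode i) (dist (u i) (v i)) < _
    rw [← hs.sum_add_tsum_nat_add (n + 2), Finset.sum_eq_zero fun i hi => by
      rw [show u i = v i from h i (Finset.mem_range.1 hi), dist_self]
      exact min_eq_right (by positivity), zero_add]
    have hg : HasSum (fun i : ℕ => (1 / 2 : ℝ) ^ i * (1 / 2) ^ (n + 2)) (2 * (1 / 2) ^ (n + 2)) :=
      hasSum_geometric_two.mul_right _
    refine lt_of_le_of_lt (((summable_nat_add_iff (n + 2)).2 hs).tsum_le_tsum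
      (fun i => (min_le_left _ _).trans_eq ?_) hg.summable) ?_
    · rw [← pow_add, one_div]; rfl
    · rw [hg.tsum_eq, ← one_div_pow, pow_add]
      have : (0 : ℝ) < (1 / 2) ^ n := by positivity
      linarith

/-- Passing to a computable dense subsequence. -/
noncomputable def CMS.reindex (M : CMS) (r : ℕ → ℕ) (hr : TD r) (hd : DenseRange fun i => M.c (r i)) :
    CMS where
  X := M.X
  c i := M.c (r i)
  dense := hd
  comp := (CR.dist_c M (i := fun a : ℕ × ℕ => r a.1) (j := fun a => r a.2)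
    (by fun_prop) (by fun_prop)).out

/-- The product of two computable metric spaces. -/
noncomputable def CMS.prod (M N : CMS) : CMS where
  X := M.X × N.X
  c i := (M.c i.unpair.1, N.c i.unpair.2)
  dense := (M.dense.prodMap N.dense).mono (by
    rintro _ ⟨⟨i, j⟩, rfl⟩
    exact ⟨Nat.pair i j, by simp⟩)
  comp := ((CR.dist_c M (i := fun a : ℕ × ℕ => a.1.unpair.1) (j := fun a => a.2.unpair.1)
    (by fun_prop) (by fun_prop)).max (CR.dist_c N (i := fun a : ℕ × ℕ => a.1.unpair.2)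
      (j := fun a => a.2.unpair.2) (by fun_prop) (by fun_prop))).out

/-- A basic open condition on one coordinate. -/
def Bas {I : Type} (x : I → ℝ) (e : I × ℕ × ℕ × ℕ) : Prop :=
  |2 ^ e.2.1 * x e.1 - e.2.2.1| < e.2.2.2

/-- The margin by which a list of basic conditions holds. -/
noncomputable def marg {I : Type} (x : I → ℝ) (l : List (I × ℕ × ℕ × ℕ)) : ℝ :=
  l.foldr (fun e r => min (max 0 (e.2.2.2 - |2 ^ e.2.1 * x e.1 - e.2.2.1|)) r) 1

theorem marg_nonneg {I : Type} (x : I → ℝ) (l : List (I × ℕ × ℕ × ℕ)) : 0 ≤ marg x l := by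
  induction l with
  | nil => exact zero_le_one
  | cons e l ih => exact le_min (le_max_left _ _) ih

theorem marg_pos {I : Type} {x : I → ℝ} {l : List (I × ℕ × ℕ × ℕ)} :
    0 < marg x l ↔ ∀ e ∈ l, Bas x e := by
  induction l with
  | nil => simp [marg]
  | cons e l ih =>
    rw [List.forall_mem_cons, ← ih]
    change 0 < min _ (marg x l) ↔ _
    simp [Bas]

theorem continuous_marg {I : Type} (l : List (I × ℕ × ℕ × ℕ)) :
    Continuous fun x : I → ℝ => marg x l := by
  induction l with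
  | nil => exact continuous_const
  | cons e l ih =>
    exact Continuous.min (f := fun x : I → ℝ =>
      max 0 ((e.2.2.2 : ℝ) - |2 ^ e.2.1 * x e.1 - e.2.2.1|)) (by fun_prop) ih

theorem exists_cms {I N K : Type} [Rep I] [Primcodable I] [Disc I] [Inhabited I]
    [Rep N] [Primcodable N] [Disc N] [Inhabited N] [Rep K] [Primcodable K] [Disc K] [Inhabited K]
    (p : ℕ → I → ℝ) (hp : CR fun a : ℕ × I => p a.1 a.2)
    (L : N → K → List (I × ℕ × ℕ × ℕ)) (hL : TD fun a : N × K => L a.1 a.2)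
    (hG : ∀ i n, ∃ k, ∀ e ∈ L n k, Bas (p i) e) :
    ∃ (M : CMS) (π : M.X → I → ℝ), IsEmbedding π ∧ (∀ i, π (M.c i) = p i) ∧
      ∀ x, x ∈ Set.range π ↔ x ∈ closure (Set.range p) ∧ ∀ n, ∃ k, ∀ e ∈ L n k, Bas x e := by
  let f : ℕ → (I → ℝ) → ℝ := fun n x => ∑' k : ℕ, min (1 / 2 ^ k) (marg x (L (un N n) (un K k)))
  have hg : Summable fun i : ℕ => (1 : ℝ) / 2 ^ i := by simpa using summable_geometric_two
  have h0 : ∀ (k : ℕ) (x : I → ℝ) l, 0 ≤ min (1 / 2 ^ k) (marg x l) := fun k x l =>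
    le_min (by positivity) (marg_nonneg _ _)
  have fc : ∀ n, Continuous (f n) := fun n =>
    continuous_tsum (fun k => continuous_const.min (continuous_marg _)) hg fun k x => by
      rw [Real.norm_of_nonneg (h0 _ _ _)]; exact min_le_left _ _
  have fp : ∀ x, (∀ n, ∃ k, ∀ e ∈ L n k, Bas x e) → ∀ n, 0 < f n x := fun x hx n => by
    obtain ⟨k, hk⟩ := hx (un N n)
    refine (hg.of_nonneg_of_le (fun _ => h0 _ _ _) fun _ => min_le_left _ _).tsum_pos
      (fun _ => h0 _ _ _) (encode k) (lt_min (by positivity) ?_)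
    rw [un_encode]
    exact marg_pos.2 hk
  have fp' : ∀ x, (∀ n, f n x ≠ 0) → ∀ n, ∃ k, ∀ e ∈ L n k, Bas x e := fun x hx n => by
    by_contra hne
    refine hx (encode n) ((tsum_congr fun k => ?_).trans tsum_zero)
    rw [un_encode]
    have : ¬ 0 < marg x (L n (un K k)) := fun h => hne ⟨_, marg_pos.1 h⟩
    rw [le_antisymm (not_lt.1 this) (marg_nonneg _ _)]
    exact min_eq_right (by positivity)
  have fCR : CR fun a : ℕ × ℕ => f a.2 (p a.1) := by
    refine CR.tsum (F := fun b : (ℕ × ℕ) × ℕ =>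
      min (1 / 2 ^ b.2) (marg (p b.1.1) (L (un N b.1.2) (un K b.2))))
      ((CR.pow (by fun_prop)).min ?_) (fun _ => h0 _ _ _) fun _ => min_le_left _ _
    refine CR.lmin (l := fun b : (ℕ × ℕ) × ℕ => L (un N b.1.2) (un K b.2))
      (F := fun c : ((ℕ × ℕ) × ℕ) × (I × ℕ × ℕ × ℕ) =>
        max 0 (c.2.2.2.2 - |2 ^ c.2.2.1 * p c.1.1.1 c.2.1 - c.2.2.2.1|))
      (hL.comp' (f := fun b : (ℕ × ℕ) × ℕ => (un N b.1.2, un K b.2)) (by fun_prop)) ?_
    exact (CR.nat (by fun_prop)).tsub (((hp.comp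
      (f := fun c : ((ℕ × ℕ) × ℕ) × (I × ℕ × ℕ × ℕ) => (c.1.1.1, c.2.1))
      (by fun_prop)).scale (by fun_prop)).abs_sub (CR.nat (by fun_prop)))
  let E : (I → ℝ) → ℕ → ℝ := fun x n =>
    cond (decide (n % 2 = 0)) (x (un I (n / 2))) (f (n / 2) x)⁻¹
  have E0 : ∀ x n, E x (2 * n) = x (un I n) := fun x n => by simp [E]
  have E1 : ∀ x n, E x (2 * n + 1) = (f n x)⁻¹ := fun x n => by
    have h1 : (2 * n + 1) / 2 = n := by omega
    simp [E, h1]
  have Ec : ∀ x, (∀ n, f n x ≠ 0) → ContinuousAt E x := fun x hx =>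
    continuousAt_pi.2 fun n => by
      simp only [E]
      cases decide (n % 2 = 0)
      · exact (fc _).continuousAt.inv₀ (hx _)
      · exact (continuous_apply _).continuousAt
  obtain ⟨M, ι, h1, h2, h3⟩ := exists_cms_pi (fun i => E (p i)) (CR.cond (by fun_prop)
    (hp.comp (f := fun a : ℕ × ℕ => (a.1, un I (a.2 / 2))) (by fun_prop))
    ((fCR.comp (f := fun a : ℕ × ℕ => (a.1, a.2 / 2)) (by fun_prop)).inv
      fun a => fp _ (hG _) _))
  let ρ : (ℕ → ℝ) → I → ℝ := fun z s => z (2 * encode s)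
  have ρc : Continuous ρ := continuous_pi fun s => continuous_apply _
  have ρE : ∀ x, ρ (E x) = x := fun x => funext fun s => by simp only [ρ, E0, un_encode]
  have key : ∀ z ∈ closure (Set.range fun i => E (p i)),
      ∀ n, z (2 * n) = ρ z (un I n) ∧ z (2 * n + 1) * f n (ρ z) = 1 := by
    intro z hz n
    have c1 : IsClosed {z : ℕ → ℝ | z (2 * n) = ρ z (un I n)} :=
      isClosed_eq (continuous_apply _) ((continuous_apply _).comp ρc)
    have c2 : IsClosed {z : ℕ → ℝ | z (2 * n + 1) * f n (ρ z) = 1} :=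
      isClosed_eq ((continuous_apply _).mul ((fc n).comp ρc)) continuous_const
    refine closure_minimal (t := {z | z (2 * n) = ρ z (un I n) ∧ z (2 * n + 1) * f n (ρ z) = 1})
      ?_ (c1.inter c2) hz
    rintro _ ⟨i, rfl⟩
    simp only [Set.mem_ofPred_eq, ρE, E0, E1, true_and]
    exact inv_mul_cancel₀ (fp _ (hG i) n).ne'
  have hz : ∀ z, ι z ∈ closure (Set.range fun i => E (p i)) := fun z => h3 ▸ ⟨z, rfl⟩
  have k1 : ∀ z n, f n (ρ (ι z)) ≠ 0 := fun z n => right_ne_zero_of_mul_eq_one (key _ (hz z) n).2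
  have k2 : ∀ z, E (ρ (ι z)) = ι z := fun z => funext fun n => by
    obtain ⟨m, rfl | rfl⟩ := Nat.even_or_odd' n
    · rw [E0, (key _ (hz z) m).1]
    · rw [E1, eq_inv_of_mul_eq_one_left (key _ (hz z) m).2]
  refine ⟨M, fun z => ρ (ι z), ⟨isInducing_iff_nhds.2 fun z => le_antisymm
    (ρc.comp h1.continuous).continuousAt.tendsto.le_comap ?_, fun z z' e => h1.injective ?_⟩,
    fun i => by simp only [h2, ρE], fun x => ⟨?_, fun hx => ?_⟩⟩
  · rw [h1.nhds_eq_comap, ← tendsto_iff_comap]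
    have := (Ec _ (k1 z)).tendsto.comp (tendsto_comap (f := fun z => ρ (ι z)))
    rw [k2] at this
    exact this.congr fun z => k2 z
  · rw [← k2 z, ← k2 z']
    exact congrArg E e
  · rintro ⟨z, rfl⟩
    refine ⟨map_mem_closure ρc (hz z) ?_, fp' _ (k1 z)⟩
    rintro _ ⟨i, rfl⟩
    exact ⟨i, (ρE _).symm⟩
  · have h4 := mem_closure_image (Ec x fun n => (fp x hx.2 n).ne') hx.1
    rw [← Set.range_comp] at h4
    obtain ⟨z, e⟩ : E x ∈ Set.range ι := h3 ▸ h4
    exact ⟨z, by simp only [e, ρE]⟩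

end Pool.Agent.Lib.MP_7511ee_lc
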