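import Pool.Agent.Lib.MP_7511ee_lc.Enum

/-!
An oracle for which Baire space is categorical computes every `Π¹₁` singleton.
-/

namespace Pool.Agent.Lib.MP_7511ee_lc

open Pool.Agent.Shared.Type2 Encodable Filter Topology

/-- A list followed by a marker. -/
def mark (j n : ℕ) : ℕ := encode (un (List ℕ) j ++ [n + 1])

@[fun_prop] theorem TD_mark {X : Type} [Rep X] {j n : X → ℕ} (hj : TD j) (hn : TD n) :
    TD fun x => mark (j x) (n x) := by
  unfold mark; fun_prop

theorem mark_inj {j n j' n' : ℕ}
    (h : Sig.ext (un (List ℕ) (mark j n)) = Sig.ext (un (List ℕ) (mark j' n'))) : n = n' := by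
  simp only [mark, un_encode] at h
  generalize un (List ℕ) j = l at h
  generalize un (List ℕ) j' = l' at h
  rcases lt_trichotomy l.length l'.length with H | H | H
  · have := congrFun h l'.length
    simp [Sig.ext, List.getElem?_eq_none (l := l ++ [n + 1]) (i := l'.length) (by simpa using H)]
      at this
  · have := congrFun h l.length
    have e : (l' ++ [n' + 1])[l.length]? = some (n' + 1) := by rw [H]; simp
    simpa [Sig.ext, e] using this
  · have := congrFun h l.length
    simp [Sig.ext, List.getElem?_eq_none (l := l' ++ [n' + 1]) (i := l.length) (by simpa using H)]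
      at this

theorem ext_mark (w : B) {k i : ℕ} (h : i < k) (n : ℕ) :
    Sig.ext (un (List ℕ) (mark (encode (pre w k)) n)) i = w i := by
  simp only [mark, un_encode]
  rw [Sig.ext_append _ _ (by simpa [pre] using h), Sig.ext_pre w h]

theorem lower {strict : Bool} {α : B} (hα : BaireCategorical strict α) {y : B} (hy : Sing y) :
    Red y α := by
  obtain ⟨X, i₀, i₁, hX, hne, H⟩ := exists_space hy
  obtain ⟨N, e, e1, e2, e3⟩ := exists_baire
  have near : ∀ (u : N.X) (k n : ℕ),
      dist (N.c (mark (encode (pre (e u) (k + 2))) n)) u < 1 / 2 ^ k := fun u k n =>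
    e3 _ _ k fun i hi => by rw [e1, ext_mark _ hi]
  have hd1 : DenseRange fun n => N.c (mark n n) := Metric.denseRange_iff.2 fun u ε hε => by
    obtain ⟨k, hk⟩ := exists_div_pow_lt 1 hε
    exact ⟨_, by rw [dist_comm]; exact (near u k _).trans hk⟩
  have hd2 : DenseRange fun n => (X.prod N).c (Nat.pair n.unpair.1 (mark n.unpair.2 n)) :=
    Metric.denseRange_iff.2 fun u ε hε => by
      obtain ⟨k, hk⟩ := exists_div_pow_lt 1 hε
      obtain ⟨i, hi⟩ := X.dense.exists_dist_lt u.1 hε
      refine ⟨Nat.pair i (encode (pre (e u.2) (k + 2))), ?_⟩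
      simp only [CMS.prod, Nat.unpair_pair]
      exact max_lt hi (by rw [dist_comm]; exact (near u.2 k _).trans hk)
  let M' := (X.prod N).reindex _ (by fun_prop) hd2
  let N' := N.reindex _ (by fun_prop) hd1
  obtain ⟨e'⟩ := hX
  obtain ⟨h, ⟨c, hc⟩, -⟩ := hα M' N' (fun _ => ⟨fun a b hab => by
      have := congrArg (fun z : X.X × N.X => e z.2) hab
      simp only [M', CMS.reindex, CMS.prod, Nat.unpair_pair, e1] at this
      exact mark_inj this, fun a b hab => by
      have := congrArg e hab
      simp only [N', CMS.reindex, e1] at this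
      exact mark_inj this⟩) ⟨((Homeomorph.refl _).prodCongr e).trans e'⟩ ⟨e⟩
  let u₀ : N.X := e.symm (lam fun _ => 0)
  obtain ⟨n₀, hn₀⟩ : ∃ n, e (h (X.c i₀, u₀)) n ≠ e (h (X.c i₁, u₀)) n := by
    by_contra hn
    push Not at hn
    exact hne (congrArg Prod.fst (h.injective (e.injective (funext hn))))
  have hcont : Continuous fun z : X.X => e (h (z, u₀)) n₀ :=
    (continuous_apply n₀).comp (e.continuous.comp (h.continuous.comp (Continuous.prodMk_left u₀)))
  refine H (fun z => decide (e (h (z, u₀)) n₀ = e (h (X.c i₀, u₀)) n₀)) α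
    ((continuous_of_discreteTopology (f := fun k => decide (k = e (h (X.c i₀, u₀)) n₀))).comp hcont)
    (by simpa using hn₀.symm) (TD.decide_eq ?_ (by fun_prop))
  let ν : ℕ → B := fun i => lam fun k => Nat.pair i (encode (pre (lam fun _ => 0) (k + 2)))
  have hν : ∀ i, IsName M' (ν i) (X.c i, u₀) := fun i k => by
    simp only [M', ν, CMS.reindex, CMS.prod, lam_def, Nat.unpair_pair]
    refine max_lt (by simp) ?_
    have := near u₀ k (Nat.pair i (encode (pre (lam fun _ => 0) (k + 2))))
    simpa only [u₀, e.apply_symm_apply, lam_def] using this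
  choose q hq hq' using fun i => hc _ _ (hν i)
  have h1 : TD fun z : {z : B // ∀ k, (c.eval z k).Dom} => lam fun k => (c.eval z.1 k).get (z.2 k) :=
    ⟨c, fun z k => Part.get_mem _⟩
  have h2 : TD fun a : Pt1 α × ℕ => (⟨jn a.1.1 (ν a.2), fun k => by
      rw [a.1.2]; exact Part.dom_iff_mem.2 ⟨_, hq' a.2 k⟩⟩ : {z : B // ∀ k, (c.eval z k).Dom}) :=
    TD.sub_mk (by simp only [ν]; fun_prop) _
  have h3 : TD fun a : Pt1 α × ℕ => q a.2 := (h1.comp' h2).of_eq (by
    rintro ⟨⟨_, rfl⟩, i⟩
    exact funext fun k => Part.get_eq_of_mem (hq' i k) _)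
  have h4 : TD fun a : Pt1 α × ℕ =>
      ap (Sig.ext (un (List ℕ) (mark (ap (q a.2) n₀) (ap (q a.2) n₀)))) n₀ :=
    TD.ap' (TD.ext' (TD_un (TD_mark (h3.ap' (by fun_prop)) (h3.ap' (by fun_prop))))) (by fun_prop)
  refine h4.of_eq fun a => ?_
  rw [← e1]
  exact e2 _ _ n₀ (hq a.2 n₀)

theorem categorical_iff {strict : Bool} {α : B} :
    BaireCategorical strict α ↔ ∀ y, Sing y → Red y α :=
  ⟨fun h _ hy => lower h hy, fun h => categorical_of h strict⟩

end Pool.Agent.Lib.MP_7511ee_lc
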