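import Pool.Agent.Lib.MP_7511ee_lc.Upper

/-!
More closure properties of computable real-valued functions.
-/

namespace Pool.Agent.Lib.MP_7511ee_lc

open Pool.Agent.Shared.Type2 Encodable Filter Topology

theorem floor_err (a b : ℕ) (hb : 0 < b) : |(a : ℝ) / b - (a / b : ℕ)| ≤ 1 := by
  have h1 : ((a / b : ℕ) : ℝ) ≤ a / b := Nat.cast_div_le
  have h2 : (a : ℝ) / b < ((a / b : ℕ) : ℝ) + 1 := by
    rw [div_lt_iff₀ (by positivity)]
    have := Nat.lt_mul_div_succ a hb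
    rw [mul_comm] at this
    exact_mod_cast this
  rw [abs_le]
  constructor <;> linarith

theorem floor_err' (a j k : ℕ) :
    |(a : ℝ) / 2 ^ (k + j) - ((a / 2 ^ j : ℕ) : ℝ) / 2 ^ k| ≤ 1 / 2 ^ k := by
  have h := floor_err a (2 ^ j) (by positivity)
  have e : (a : ℝ) / 2 ^ (k + j) - ((a / 2 ^ j : ℕ) : ℝ) / 2 ^ k =
      ((a : ℝ) / (2 ^ j : ℕ) - (a / 2 ^ j : ℕ)) / 2 ^ k := by
    push_cast; field_simp; ring
  rw [e, abs_div, abs_of_pos (show (0 : ℝ) < 2 ^ k by positivity)]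
  gcongr

namespace CR

variable {X : Type} [Rep X] {Y : Type} [Rep Y] [Primcodable Y] [Disc Y]

theorem of_eq {F F' : X → ℝ} (h : CR F) (H : ∀ x, F x = F' x) : CR F' := (funext H : F = F') ▸ h

theorem dy {a m : X → ℕ} (ha : TD a) (hm : TD m) : CR fun x => (a x : ℝ) / 2 ^ m x := by
  refine ⟨1, fun p => a p.1 * 2 ^ p.2 / 2 ^ m p.1, by fun_prop, fun x k => ?_⟩
  have := floor_err' (a x * 2 ^ k) (m x) k
  have e : ((a x * 2 ^ k : ℕ) : ℝ) / 2 ^ (k + m x) = a x / 2 ^ m x := by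
    push_cast; field_simp; ring
  rw [e] at this
  simpa using this

theorem nat {a : X → ℕ} (ha : TD a) : CR fun x => (a x : ℝ) :=
  (dy (m := fun _ => 0) ha (by fun_prop)).of_eq fun x => by simp

theorem tsub {F F' : X → ℝ} (h : CR F) (h' : CR F') : CR fun x => max 0 (F x - F' x) := by
  obtain ⟨C, G, hG, h⟩ := h
  obtain ⟨C', G', hG', h'⟩ := h'
  refine ⟨C + C', fun p => G p - G' p, by fun_prop, fun x k => ?_⟩
  have h1 := abs_le.1 (h x k)
  have h2 := abs_le.1 (h' x k)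
  have e : ((G (x, k) - G' (x, k) : ℕ) : ℝ) / 2 ^ k =
      max 0 ((G (x, k) : ℝ) / 2 ^ k - G' (x, k) / 2 ^ k) := by
    rcases le_total (G (x, k)) (G' (x, k)) with H | H
    · rw [Nat.sub_eq_zero_of_le H, max_eq_left (by rw [sub_nonpos]; gcongr)]
      simp
    · rw [Nat.cast_sub H, sub_div, max_eq_right (by rw [sub_nonneg]; gcongr)]
  simp only
  rw [e, max_comm, max_comm 0]
  refine (abs_max_sub_max_le_abs _ _ _).trans ?_
  push_cast
  rw [add_div, abs_le]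
  constructor <;> linarith

theorem abs_sub {F F' : X → ℝ} (h : CR F) (h' : CR F') : CR fun x => |F x - F' x| :=
  ((h.tsub h').add (h'.tsub h)).of_eq fun x => by
    rcases le_total (F x) (F' x) with H | H
    · rw [max_eq_left (by linarith), max_eq_right (by linarith), abs_of_nonpos (by linarith)]
      ring
    · rw [max_eq_right (by linarith), max_eq_left (by linarith), abs_of_nonneg (by linarith)]
      ring

theorem min {F F' : X → ℝ} (h : CR F) (h' : CR F') : CR fun x => min (F x) (F' x) := by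
  obtain ⟨C, G, hG, h⟩ := h
  obtain ⟨C', G', hG', h'⟩ := h'
  refine ⟨C + C', fun p => Min.min (G p) (G' p), by fun_prop, fun x k => ?_⟩
  push_cast
  rw [← min_div_div_right (by positivity), add_div]
  refine (abs_min_sub_min_le_max _ _ _ _).trans (max_le ((h x k).trans ?_) ((h' x k).trans ?_))
  · exact le_add_of_nonneg_right (by positivity)
  · exact le_add_of_nonneg_left (by positivity)

theorem max {F F' : X → ℝ} (h : CR F) (h' : CR F') : CR fun x => max (F x) (F' x) := by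
  obtain ⟨C, G, hG, h⟩ := h
  obtain ⟨C', G', hG', h'⟩ := h'
  refine ⟨C + C', fun p => Max.max (G p) (G' p), by fun_prop, fun x k => ?_⟩
  push_cast
  rw [← max_div_div_right (by positivity), add_div]
  refine (abs_max_sub_max_le_max _ _ _ _).trans (max_le ((h x k).trans ?_) ((h' x k).trans ?_))
  · exact le_add_of_nonneg_right (by positivity)
  · exact le_add_of_nonneg_left (by positivity)

theorem scale {F : X → ℝ} {e : X → ℕ} (h : CR F) (he : TD e) : CR fun x => 2 ^ e x * F x := by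
  obtain ⟨C, G, hG, h⟩ := h
  refine ⟨C, fun p => G (p.1, p.2 + e p.1), by fun_prop, fun x k => ?_⟩
  have e1 : 2 ^ e x * F x - (G (x, k + e x) : ℝ) / 2 ^ k =
      2 ^ e x * (F x - (G (x, k + e x) : ℝ) / 2 ^ (k + e x)) := by
    field_simp; ring
  have e2 : (C : ℝ) / 2 ^ k = 2 ^ e x * (C / 2 ^ (k + e x)) := by field_simp; ring
  rw [e1, e2, abs_mul, abs_of_pos (show (0 : ℝ) < 2 ^ e x by positivity)]
  gcongr
  exact h _ _

theorem cond {c : X → Bool} {F F' : X → ℝ} (hc : TD c) (h : CR F) (h' : CR F') :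
    CR fun x => cond (c x) (F x) (F' x) := by
  obtain ⟨C, G, hG, h⟩ := h
  obtain ⟨C', G', hG', h'⟩ := h'
  refine ⟨C + C', fun p => _root_.cond (c p.1) (G p) (G' p), by fun_prop, fun x k => ?_⟩
  push_cast
  rw [add_div]
  cases c x
  · exact (h' x k).trans (le_add_of_nonneg_left (by positivity))
  · exact (h x k).trans (le_add_of_nonneg_right (by positivity))

theorem lmin {l : X → List Y} {F : X × Y → ℝ} (hl : TD l) (h : CR F) :
    CR fun x => (l x).foldr (fun y r => Min.min (F (x, y)) r) 1 := by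
  obtain ⟨C, G, hG, h⟩ := h
  refine ⟨C, fun p => (l p.1).foldr (fun y r => Min.min (G ((p.1, y), p.2)) r) (2 ^ p.2),
    by fun_prop, fun x k => ?_⟩
  simp only
  induction l x with
  | nil => simp; positivity
  | cons a t ih =>
    simp only [List.foldr_cons]
    push_cast
    rw [← min_div_div_right (by positivity)]
    exact (abs_min_sub_min_le_max _ _ _ _).trans (max_le (h _ k) ih)

theorem tsum {F : X × ℕ → ℝ} (h : CR F) (h0 : ∀ p, 0 ≤ F p) (h1 : ∀ p, F p ≤ 1 / 2 ^ p.2) :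
    CR fun x => ∑' i, F (x, i) := by
  obtain ⟨C, G, hG, h⟩ := h
  refine ⟨C + 3, fun p => nrec p.2 0 (fun i r => r + G ((p.1, i), p.2 + p.2)) / 2 ^ p.2,
    by fun_prop, fun x k => ?_⟩
  have hg : Summable fun i : ℕ => (1 : ℝ) / 2 ^ i := by simpa using summable_geometric_two
  have hs : Summable fun i => F (x, i) := hg.of_nonneg_of_le (fun i => h0 _) fun i => h1 (x, i)
  have e1 : ∀ n, |∑ i ∈ Finset.range n, F (x, i) -
      ((nrec n 0 (fun i r => r + G ((x, i), k + k)) : ℕ) : ℝ) / 2 ^ (k + k)| ≤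
        n * (C / 2 ^ (k + k)) := by
    intro n
    induction n with
    | zero => simp
    | succ n ih =>
      rw [Finset.sum_range_succ, nrec_succ]
      have h2 := abs_le.1 (h (x, n) (k + k))
      have h3 := abs_le.1 ih
      push_cast
      rw [add_div, abs_le]
      constructor <;> linarith
  have e2 : ∑' i, F (x, i + k) ≤ 2 / 2 ^ k := by
    have : ∑' i : ℕ, (1 : ℝ) / 2 ^ (i + k) = 2 / 2 ^ k := by
      have : ∀ i : ℕ, (1 : ℝ) / 2 ^ (i + k) = (1 / 2) ^ i * (1 / 2 ^ k) := fun i => by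
        rw [one_div_pow]; field_simp; ring
      rw [tsum_congr this, tsum_mul_right, tsum_geometric_two]
      ring
    rw [← this]
    exact ((summable_nat_add_iff k).2 hs).tsum_le_tsum (fun i => h1 (x, i + k))
      ((summable_nat_add_iff (f := fun i : ℕ => (1 : ℝ) / 2 ^ i) k).2 hg)
  have e3 : 0 ≤ ∑' i, F (x, i + k) := tsum_nonneg fun i => h0 _
  have e4 := abs_le.1 (floor_err' (nrec k 0 fun i r => r + G ((x, i), k + k)) k k)
  have e5 : (k : ℝ) * (C / 2 ^ (k + k)) ≤ C / 2 ^ k := by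
    have : (k : ℝ) ≤ 2 ^ k := by exact_mod_cast Nat.lt_two_pow_self.le
    calc (k : ℝ) * (C / 2 ^ (k + k)) ≤ 2 ^ k * (C / 2 ^ (k + k)) := by gcongr
      _ = C / 2 ^ k := by field_simp; ring
  have e6 := abs_le.1 (e1 k)
  simp only
  rw [← hs.sum_add_tsum_nat_add k]
  have e7 : ((C + 3 : ℕ) : ℝ) / 2 ^ k = C / 2 ^ k + 2 / 2 ^ k + 1 / 2 ^ k := by push_cast; ring
  have e8 : (0 : ℝ) ≤ 2 / 2 ^ k := by positivity
  rw [e7, abs_le]
  constructor <;> linarith

theorem inv {F : X → ℝ} (h : CR F) (h0 : ∀ x, 0 < F x) : CR fun x => (F x)⁻¹ := by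
  obtain ⟨C, G, hG, h⟩ := h
  have hex : ∀ x, ∃ m, decide (C + 1 ≤ G (x, m)) = true := by
    intro x
    obtain ⟨m, hm⟩ := exists_div_pow_lt (2 * C + 1) (h0 x)
    have h1 := (abs_le.1 (h x m)).2
    have h2 : ((C : ℝ) + 1) / 2 ^ m ≤ G (x, m) / 2 ^ m := by
      rw [show (2 * C + 1 : ℝ) / 2 ^ m = (C + 1) / 2 ^ m + C / 2 ^ m by ring] at hm
      linarith
    rw [div_le_div_iff_of_pos_right (by positivity)] at h2
    exact ⟨m, decide_eq_true (by exact_mod_cast h2)⟩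
  have hm : TD fun x => Nat.find (hex x) := TD.find' (by fun_prop) hex
  set m : X → ℕ := fun x => Nat.find (hex x)
  have hF : ∀ x, 1 / 2 ^ m x ≤ F x := fun x => by
    have h1 : ((C + 1 : ℕ) : ℝ) / 2 ^ m x ≤ G (x, m x) / 2 ^ m x := by
      gcongr; exact of_decide_eq_true (Nat.find_spec (hex x))
    have h2 := (abs_le.1 (h x (m x))).1
    push_cast at h1
    rw [add_div] at h1
    linarith
  clear_value m
  refine ⟨3, fun p => 2 ^ (p.2 + (p.2 + (2 * m p.1 + 1) + C)) / G (p.1, p.2 + (2 * m p.1 + 1) + C),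
    by fun_prop, fun x k => ?_⟩
  simp only
  set j := k + (2 * m x + 1) + C with hj
  have hC : (C : ℝ) / 2 ^ j ≤ 1 / 2 ^ (k + (2 * m x + 1)) := by
    have : (C : ℝ) ≤ 2 ^ C := by exact_mod_cast Nat.lt_two_pow_self.le
    calc (C : ℝ) / 2 ^ j ≤ 2 ^ C / 2 ^ j := by gcongr
      _ = _ := by rw [hj]; field_simp; ring
  have h1 := (h x j).trans hC
  set u : ℝ := G (x, j) / 2 ^ j with hu
  have h2 : (1 : ℝ) / 2 ^ (k + (2 * m x + 1)) ≤ 1 / 2 ^ (m x + 1) :=
    one_div_le_one_div_of_le (by positivity) (pow_le_pow_right₀ one_le_two (by omega))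
  have h3 : (1 : ℝ) / 2 ^ (m x + 1) ≤ u := by
    have := (abs_le.1 h1).2
    have e : (1 : ℝ) / 2 ^ m x = 1 / 2 ^ (m x + 1) + 1 / 2 ^ (m x + 1) := by field_simp; ring
    have := hF x
    linarith
  have hu0 : 0 < u := lt_of_lt_of_le (by positivity) h3
  have hG0 : 0 < G (x, j) := by
    rcases Nat.eq_zero_or_pos (G (x, j)) with H | H
    · simp [hu, H] at hu0
    · exact H
  have h4 : |(F x)⁻¹ - u⁻¹| ≤ 1 / 2 ^ k := by
    have := h0 x
    rw [inv_sub_inv this.ne' hu0.ne', abs_div, abs_sub_comm, abs_of_pos (mul_pos this hu0)]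
    calc |F x - u| / (F x * u) ≤ (1 / 2 ^ (k + (2 * m x + 1))) / (1 / 2 ^ m x * (1 / 2 ^ (m x + 1))) := by
          gcongr
          exact hF x
      _ = 1 / 2 ^ k := by field_simp; ring
  have h5 := floor_err (2 ^ (k + j)) (G (x, j)) hG0
  have h6 : |u⁻¹ - ((2 ^ (k + j) / G (x, j) : ℕ) : ℝ) / 2 ^ k| ≤ 1 / 2 ^ k := by
    have e : u⁻¹ - ((2 ^ (k + j) / G (x, j) : ℕ) : ℝ) / 2 ^ k =
        (((2 ^ (k + j) : ℕ) : ℝ) / G (x, j) - (2 ^ (k + j) / G (x, j) : ℕ)) / 2 ^ k := by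
      rw [hu, sub_div]
      congr 1
      push_cast
      field_simp
      ring
    rw [e, abs_div, abs_of_pos (show (0 : ℝ) < 2 ^ k by positivity)]
    gcongr
  have h7 := abs_le.1 h4
  have h8 := abs_le.1 h6
  have e : ((3 : ℕ) : ℝ) / 2 ^ k = 1 / 2 ^ k + 1 / 2 ^ k + 1 / 2 ^ k := by push_cast; ring
  have : (0 : ℝ) ≤ 1 / 2 ^ k := by positivity
  rw [e, abs_le]
  constructor <;> linarith

theorem out {F : ℕ × ℕ → ℝ} (h : CR F) : ∃ g : ℕ × ℕ × ℕ → ℕ, Computable g ∧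
    ∀ i j k : ℕ, |F (i, j) - (g (i, j, k) : ℝ) / 2 ^ k| ≤ 1 / 2 ^ k := by
  obtain ⟨C, G, hG, h⟩ := h
  refine ⟨fun p => (G ((p.1, p.2.1), p.2.2 + (C + 1)) + 2 ^ C) / 2 ^ (C + 1),
    TD.computable (by fun_prop), fun i j k => ?_⟩
  simp only
  set a := G ((i, j), k + (C + 1))
  have h1 := abs_le.1 (h (i, j) (k + (C + 1)))
  have hC : (C : ℝ) / 2 ^ (k + (C + 1)) ≤ 1 / 2 / 2 ^ k := by
    have : (C : ℝ) ≤ 2 ^ C := by exact_mod_cast Nat.lt_two_pow_self.le
    calc (C : ℝ) / 2 ^ (k + (C + 1)) ≤ 2 ^ C / 2 ^ (k + (C + 1)) := by gcongr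
      _ = _ := by field_simp; ring
  have h2 := (abs_le.1 (floor_err' (a + 2 ^ C) (C + 1) k)).2
  have h3 : (((a + 2 ^ C) / 2 ^ (C + 1) : ℕ) : ℝ) / 2 ^ k ≤
      ((a + 2 ^ C : ℕ) : ℝ) / 2 ^ (k + (C + 1)) := by
    have : (((a + 2 ^ C) / 2 ^ (C + 1) : ℕ) : ℝ) ≤ (a + 2 ^ C : ℕ) / (2 ^ (C + 1) : ℕ) :=
      Nat.cast_div_le
    calc _ ≤ (((a + 2 ^ C : ℕ) : ℝ) / (2 ^ (C + 1) : ℕ)) / 2 ^ k := by gcongr
      _ = _ := by push_cast; field_simp; ring
  have e : ((a + 2 ^ C : ℕ) : ℝ) / 2 ^ (k + (C + 1)) = a / 2 ^ (k + (C + 1)) + 1 / 2 / 2 ^ k := by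
    push_cast; field_simp; ring
  have e2 : (1 : ℝ) / 2 ^ k = 1 / 2 / 2 ^ k + 1 / 2 / 2 ^ k := by ring
  rw [abs_le]
  constructor <;> linarith

end CR

end Pool.Agent.Lib.MP_7511ee_lc
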