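import Pool.Agent.Lib.MP_7511ee_lc.Gdelta

/-!
Configurations on a tree of addresses and the bisection argument.
-/

namespace Pool.Agent.Lib.MP_7511ee_lc

open Pool.Agent.Shared.Type2 Encodable Filter Topology

/-- Addresses. -/
abbrev Ad : Type := List (ℕ × ℕ)

/-- The window around one. -/
def Win (r : ℝ) : Prop := |2 * r - 2| < 1

/-- A nonzero release coordinate pins the value of its parent. -/
def K1 (x : Ad → ℝ) (s : Ad) : Prop :=
  ∀ c : ℕ × ℕ, 2 ≤ c.1 → x (c :: s) ≠ 0 → x s = c.2 / 2 ^ c.1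

/-- The value is an integer or is released. -/
def K2 (x : Ad → ℝ) (s : Ad) : Prop :=
  (∃ k : ℕ, x s = k) ∨ ∃ c : ℕ × ℕ, 2 ≤ c.1 ∧ Win (x (c :: s))

/-- Legal finite configurations. -/
structure Leg (x : Ad → ℝ) : Prop where
  fin : {t | x t ≠ 0}.Finite
  dy : ∀ t, ∃ a m : ℕ, x t = a / 2 ^ m
  k1 : ∀ s, K1 x s
  k2 : ∀ s, K2 x s

/-- The open conditions. -/
def Gat (T : B → List ℕ → Bool) (x : Ad → ℝ) (s : Ad) (n : ℕ) : Prop :=
  (∃ k : ℕ, |2 ^ n * x s - 2 ^ n * k| < 1) ∨ (∃ c : ℕ × ℕ, 2 ≤ c.1 ∧ Win (x (c :: s))) ∨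
    ∃ a w : B, T a (pre w n) = true ∧ ∀ j < n, |2 * x ((1, j) :: s) - 2 * a j| < 1 ∧
      |2 * x ((0, j) :: s) - 2 * w j| < 1 ∧ |2 ^ j * x s - a j| < 2

theorem K2.gat {x : Ad → ℝ} {s : Ad} (h : K2 x s) (T : B → List ℕ → Bool) (n : ℕ) :
    Gat T x s n := by
  rcases h with ⟨k, h⟩ | h
  · exact Or.inl ⟨k, by simp [h]⟩
  · exact Or.inr (Or.inl h)

/-- The colouring does not separate two sequences with a common limit in the space. -/
def Cts (T : B → List ℕ → Bool) (χ : (Ad → ℝ) → Bool) : Prop :=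
  ∀ (u u' : ℕ → Ad → ℝ) (x : Ad → ℝ), (∀ s n, Gat T x s n) → (∀ n, Leg (u n)) →
    (∀ n, Leg (u' n)) → Tendsto u atTop (𝓝 x) → Tendsto u' atTop (𝓝 x) →
      ∃ n, χ (u n) = χ (u' n)

/-- Agreement outside the subtree at `s`. -/
def Out (s : Ad) (x x' : Ad → ℝ) : Prop := ∀ t, ¬ s <:+ t → x t = x' t

theorem Out.symm {s : Ad} {x x' : Ad → ℝ} (h : Out s x x') : Out s x' x := fun t ht => (h t ht).symm
theorem Out.trans {s : Ad} {x y z : Ad → ℝ} (h : Out s x y) (h' : Out s y z) : Out s x z :=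
  fun t ht => (h t ht).trans (h' t ht)
theorem Out.up {s : Ad} {c : ℕ × ℕ} {x y : Ad → ℝ} (h : Out (c :: s) x y) : Out s x y :=
  fun t ht => h t fun h' => ht ((List.suffix_cons c s).trans h')

/-- Two legal configurations of different colours that differ only below `s`. -/
def Split (χ : (Ad → ℝ) → Bool) (s : Ad) (x x' : Ad → ℝ) : Prop :=
  Leg x ∧ Leg x' ∧ Out s x x' ∧ χ x ≠ χ x'

/-- No split strictly below `s`. -/
def Mini (χ : (Ad → ℝ) → Bool) (s : Ad) (x : Ad → ℝ) : Prop :=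
  ∀ c u u', Out s u x → ¬ Split χ (c :: s) u u'

theorem descent {T : B → List ℕ → Bool} {χ : (Ad → ℝ) → Bool} (H : Cts T χ) {x₀ x₁ : Ad → ℝ}
    (h : Split χ [] x₀ x₁) : ∃ s x x', Split χ s x x' ∧ Mini χ s x := by
  by_contra hne
  have step : ∀ a : {a : Ad × (Ad → ℝ) × (Ad → ℝ) // Split χ a.1 a.2.1 a.2.2},
      ∃ b : {a : Ad × (Ad → ℝ) × (Ad → ℝ) // Split χ a.1 a.2.1 a.2.2},
        b.1.1.length = a.1.1.length + 1 ∧ Out a.1.1 b.1.2.1 a.1.2.1 := by
    rintro ⟨⟨s, x, x'⟩, hs⟩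
    by_contra h'
    exact hne ⟨s, x, x', hs, fun c u u' h1 h2 => h' ⟨⟨(c :: s, u, u'), h2⟩, rfl, h1⟩⟩
  choose F F1 F2 using step
  let a : ℕ → {a : Ad × (Ad → ℝ) × (Ad → ℝ) // Split χ a.1 a.2.1 a.2.2} := fun n =>
    F^[n] ⟨([], x₀, x₁), h⟩
  have a1 : ∀ n, a (n + 1) = F (a n) := fun n => Function.iterate_succ_apply' _ _ _
  have hl : ∀ n, (a n).1.1.length = n := by
    intro n
    induction n with
    | zero => rfl
    | succ n ih => rw [a1, F1, ih]
  have hn : ∀ n (t : Ad), t.length < n → ¬ (a n).1.1 <:+ t := fun n t ht h' => by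
    have := h'.length_le
    rw [hl] at this
    omega
  have hst : ∀ (t : Ad) n, t.length < n → (a n).1.2.1 t = (a (t.length + 1)).1.2.1 t := by
    intro t n ht
    induction n, ht using Nat.le_induction with
    | base => rfl
    | succ n ht ih => rw [a1, F2 _ t (hn n t ht), ih]
  obtain ⟨n, e⟩ := H (fun n => (a n).1.2.1) (fun n => (a n).1.2.2)
    (fun t => (a (t.length + 1)).1.2.1 t) (fun s n => K2.gat (by
      rcases (a (s.length + 2)).2.1.k2 s with ⟨k, e⟩ | ⟨c, h1, h2⟩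
      · exact Or.inl ⟨k, (hst s _ (by omega)).symm.trans e⟩
      · exact Or.inr ⟨c, h1, h2⟩) T n) (fun n => (a n).2.1) (fun n => (a n).2.2.1)
    (tendsto_pi_nhds.2 fun t => tendsto_const_nhds.congr' (by
      filter_upwards [eventually_gt_atTop t.length] with n ht using (hst t n ht).symm))
    (tendsto_pi_nhds.2 fun t => tendsto_const_nhds.congr' (by
      filter_upwards [eventually_gt_atTop t.length] with n ht
      exact (hst t n ht).symm.trans ((a n).2.2.2.1 t (hn n t ht))))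
  exact (a n).2.2.2.2 e

open Classical in
/-- Replace the subtree at `s`. -/
noncomputable def graft (s : Ad) (u u' : Ad → ℝ) : Ad → ℝ := fun t => if s <:+ t then u' t else u t

theorem graft_in {s t : Ad} (h : s <:+ t) (u u' : Ad → ℝ) : graft s u u' t = u' t := if_pos h
theorem graft_out {s t : Ad} (h : ¬ s <:+ t) (u u' : Ad → ℝ) : graft s u u' t = u t := if_neg h

theorem not_suffix_self (c : ℕ × ℕ) (s : Ad) : ¬ c :: s <:+ s := fun h => by
  have := h.length_le
  simp at this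

theorem not_suffix_sib {c c' : ℕ × ℕ} (h : c ≠ c') (s : Ad) : ¬ c :: s <:+ c' :: s := fun h' => by
  rcases List.suffix_cons_iff.1 h' with e | e
  · exact h (List.cons.inj e).1
  · exact not_suffix_self c s e

theorem leg_graft {c : ℕ × ℕ} {s : Ad} {u u' : Ad → ℝ} (hu : Leg u) (hu' : Leg u')
    (e : u s = u' s) (h2 : K2 (graft (c :: s) u u') s) : Leg (graft (c :: s) u u') := by
  have key : ∀ t, t ≠ s → ∃ v, Leg v ∧ graft (c :: s) u u' t = v t ∧
      ∀ d, graft (c :: s) u u' (d :: t) = v (d :: t) := by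
    intro t ht
    by_cases h : c :: s <:+ t
    · exact ⟨u', hu', graft_in h _ _, fun d => graft_in (h.trans (List.suffix_cons d t)) _ _⟩
    · refine ⟨u, hu, graft_out h _ _, fun d => graft_out (fun h' => ?_) _ _⟩
      rcases List.suffix_cons_iff.1 h' with e | e
      · exact ht (List.cons.inj e).2.symm
      · exact h e
  refine ⟨(hu.fin.union hu'.fin).subset fun t ht => ?_, fun t => ?_, fun t => ?_, fun t => ?_⟩
  · by_cases h : c :: s <:+ t
    · exact Or.inr (by rwa [Set.mem_ofPred_eq, graft_in h] at ht)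
    · exact Or.inl (by rwa [Set.mem_ofPred_eq, graft_out h] at ht)
  · by_cases h : c :: s <:+ t
    · rw [graft_in h]; exact hu'.dy t
    · rw [graft_out h]; exact hu.dy t
  · rcases eq_or_ne t s with rfl | ht
    · intro d hd h
      rw [graft_out (not_suffix_self c t)]
      rcases eq_or_ne c d with rfl | hcd
      · rw [graft_in List.suffix_rfl] at h
        exact e.trans (hu'.k1 t c hd h)
      · rw [graft_out (not_suffix_sib hcd t)] at h
        exact hu.k1 t d hd h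
    · obtain ⟨v, hv, e1, e2⟩ := key t ht
      intro d hd h
      rw [e2] at h
      exact e1.trans (hv.k1 t d hd h)
  · rcases eq_or_ne t s with rfl | ht
    · exact h2
    · obtain ⟨v, hv, e1, e2⟩ := key t ht
      rcases hv.k2 t with ⟨k, h⟩ | ⟨d, hd, h⟩
      · exact Or.inl ⟨k, e1.trans h⟩
      · exact Or.inr ⟨d, hd, by rwa [e2]⟩

theorem Mini.graft {χ : (Ad → ℝ) → Bool} {s : Ad} {x : Ad → ℝ} (h : Mini χ s x) (c : ℕ × ℕ)
    {u u' : Ad → ℝ} (hu : Leg u) (ho : Out s u x) (hg : Leg (graft (c :: s) u u')) :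
    χ u = χ (graft (c :: s) u u') := by
  by_contra hne
  exact h c u _ ho ⟨hu, hg, fun t ht => (graft_out ht _ _).symm, hne⟩

theorem exists_child {s t : Ad} (h : s <:+ t) (hne : t ≠ s) : ∃ c, c :: s <:+ t := by
  induction t with
  | nil => exact absurd (List.suffix_nil.1 h).symm hne
  | cons d t ih =>
    rcases List.suffix_cons_iff.1 h with e | e
    · exact absurd e.symm hne
    · rcases eq_or_ne t s with rfl | ht
      · exact ⟨d, List.suffix_rfl⟩
      · obtain ⟨c, hc⟩ := ih e ht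
        exact ⟨c, hc.trans (List.suffix_cons d t)⟩

theorem Mini.indep_aux {χ : (Ad → ℝ) → Bool} {s : Ad} {x : Ad → ℝ} (h : Mini χ s x)
    {u' : Ad → ℝ} (hu' : Leg u') (ho' : Out s u' x) (S : Finset (ℕ × ℕ)) :
    ∀ u, Leg u → Out s u x → u s = u' s →
      ((∃ k : ℕ, u s = k) ∨ ∃ c : ℕ × ℕ, 2 ≤ c.1 ∧ Win (u (c :: s)) ∧ Win (u' (c :: s))) →
      (∀ c ∉ S, ∀ t, c :: s <:+ t → u t = u' t) → χ u = χ u' := by
  classical
  induction S using Finset.induction_on with
  | empty =>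
    intro u _ ho e _ hS
    refine congrArg χ (funext fun t => ?_)
    by_cases ht : s <:+ t
    · rcases eq_or_ne t s with rfl | hne
      · exact e
      · obtain ⟨c, hc⟩ := exists_child ht hne
        exact hS c (Finset.notMem_empty c) t hc
    · exact (ho t ht).trans (ho' t ht).symm
  | insert c S _ ih =>
    intro u hu ho e hR hS
    have e0 : Lib.MP_7511ee_lc.graft (c :: s) u u' s = u s := graft_out (not_suffix_self c s) _ _
    have hR' : (∃ k : ℕ, Lib.MP_7511ee_lc.graft (c :: s) u u' s = k) ∨ ∃ d : ℕ × ℕ, 2 ≤ d.1 ∧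
        Win (Lib.MP_7511ee_lc.graft (c :: s) u u' (d :: s)) ∧ Win (u' (d :: s)) := by
      rcases hR with ⟨k, hk⟩ | ⟨d, h1, h2, h3⟩
      · exact Or.inl ⟨k, e0.trans hk⟩
      · refine Or.inr ⟨d, h1, ?_, h3⟩
        rcases eq_or_ne c d with rfl | hcd
        · rwa [graft_in List.suffix_rfl]
        · rwa [graft_out (not_suffix_sib hcd s)]
    have hg := leg_graft (c := c) hu hu' e (hR'.imp id fun ⟨d, h1, h2, _⟩ => ⟨d, h1, h2⟩)
    refine (h.graft c hu ho hg).trans (ih _ hg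
      (Out.trans (Out.up (c := c) fun t ht => graft_out ht _ _) ho) (e0.trans e) hR'
      fun d hd t ht => ?_)
    by_cases h1 : c :: s <:+ t
    · exact graft_in h1 _ _
    · rw [graft_out h1]
      exact hS d (fun h2 => (Finset.mem_insert.1 h2).elim (fun e => h1 (e ▸ ht)) hd) t ht

theorem Mini.indep {χ : (Ad → ℝ) → Bool} {s : Ad} {x : Ad → ℝ} (h : Mini χ s x)
    {u u' : Ad → ℝ} (hu : Leg u) (hu' : Leg u') (ho : Out s u x) (ho' : Out s u' x)
    (e : u s = u' s) : χ u = χ u' := by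
  have fin : ∀ v, Leg v → ∃ S : Finset (ℕ × ℕ), ∀ c ∉ S, ∀ t, c :: s <:+ t → v t = u' t := by
    intro v hv
    have h1 : {c : ℕ × ℕ | ∃ t ∈ {t | v t ≠ 0} ∪ {t | u' t ≠ 0}, c ∈ t}.Finite := by
      have := (hv.fin.union hu'.fin).biUnion (t := fun t : Ad => {c | c ∈ t})
        fun t _ => List.finite_toSet t
      exact this.subset fun c ⟨t, h1, h2⟩ => Set.mem_biUnion h1 h2
    refine ⟨h1.toFinset, fun c hc t ht => ?_⟩
    have h2 : t ∉ {t | v t ≠ 0} ∪ {t | u' t ≠ 0} := fun h2 =>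
      hc (h1.mem_toFinset.2 ⟨t, h2, ht.subset List.mem_cons_self⟩)
    simp only [Set.mem_union, Set.mem_ofPred_eq, not_or, not_not] at h2
    rw [h2.1, h2.2]
  rcases hu'.k2 s with ⟨k, hk⟩ | ⟨c, h1, h2⟩
  · obtain ⟨S, hS⟩ := fin u hu
    exact h.indep_aux hu' ho' S u hu ho e (Or.inl ⟨k, e.trans hk⟩) hS
  · have h3 : Win (Lib.MP_7511ee_lc.graft (c :: s) u u' (c :: s)) := by
      rwa [graft_in List.suffix_rfl]
    have hg := leg_graft (c := c) hu hu' e (Or.inr ⟨c, h1, h3⟩)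
    obtain ⟨S, hS⟩ := fin _ hg
    exact (h.graft c hu ho hg).trans (h.indep_aux hu' ho' S _ hg
      (Out.trans (Out.up (c := c) fun t ht => graft_out ht _ _) ho)
      ((graft_out (not_suffix_self c s) _ _).trans e) (Or.inr ⟨c, h1, h3, h2⟩) hS)

theorem outside {s : Ad} {x x' v : Ad → ℝ} (hx : Leg x) (hx' : Leg x') (ho : Out s x x')
    (hv : Out s v x) (h1 : x s ≤ v s) (h2 : v s ≤ x' s) {t : Ad} (ht : ¬ s <:+ t) :
    K1 v t ∧ K2 v t := by
  have hc : ∀ c, s ≠ c :: t → ¬ s <:+ c :: t := fun c h h' =>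
    (List.suffix_cons_iff.1 h').elim h ht
  constructor
  · intro c h3 h4
    rw [hv t ht]
    rcases eq_or_ne s (c :: t) with rfl | hne
    · by_contra h5
      have e1 : x (c :: t) = 0 := by_contra fun h => h5 (hx.k1 t c h3 h)
      have e2 : x' (c :: t) = 0 := by_contra fun h => h5 ((ho t ht).trans (hx'.k1 t c h3 h))
      exact h4 (by linarith)
    · exact hx.k1 t c h3 (by rwa [hv _ (hc c hne)] at h4)
  · rcases hx.k2 t with ⟨k, h⟩ | ⟨c, h3, h4⟩
    · exact Or.inl ⟨k, (hv t ht).trans h⟩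
    rcases eq_or_ne s (c :: t) with rfl | hne
    · rcases hx'.k2 t with ⟨k, h⟩ | ⟨d, h5, h6⟩
      · exact Or.inl ⟨k, (hv t ht).trans ((ho t ht).trans h)⟩
      rcases eq_or_ne (c :: t) (d :: t) with e | hne
      · refine Or.inr ⟨c, h3, ?_⟩
        rw [← e] at h6
        unfold Win at h4 h6 ⊢
        rw [abs_lt] at h4 h6 ⊢
        constructor <;> linarith [h4.1, h6.2]
      · exact Or.inr ⟨d, h5, by rwa [hv _ (hc d hne), ho _ (hc d hne)]⟩
    · exact Or.inr ⟨c, h3, by rwa [hv _ (hc c hne)]⟩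

open Classical in
/-- A configuration with value `r` at `s`, integers `g` at the children of `s`, zero below. -/
noncomputable def mk (x : Ad → ℝ) (s : Ad) (r : ℝ) (g : ℕ × ℕ → ℕ) : Ad → ℝ := fun t =>
  if s <:+ t then (if t = s then r else if t.tail = s then g (t.headD (0, 0)) else 0) else x t

theorem mk_self (x s r g) : mk x s r g s = r := by simp [mk]
theorem mk_child (x s r g c) : mk x s r g (c :: s) = g c := by simp [mk]
theorem mk_out (x s r g) : Out s (mk x s r g) x := fun t ht => by simp [mk, ht]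
theorem mk_deep (x r g) {s t : Ad} (h : s <:+ t) (hne : t ≠ s) (c) : mk x s r g (c :: t) = 0 := by
  have h1 : c :: t ≠ s := fun e => by
    have := h.length_le
    simp [← e] at this
  simp [mk, h1, hne, h.trans (List.suffix_cons c t)]

theorem mk_cases {s t : Ad} (h : s <:+ t) (hne : t ≠ s) :
    (∃ c, t = c :: s) ∨ ∀ x' r' g', mk x' s r' g' t = 0 := by
  cases t with
  | nil => exact absurd (List.suffix_nil.1 h).symm hne
  | cons c t =>
    rcases eq_or_ne t s with rfl | ht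
    · exact Or.inl ⟨c, rfl⟩
    · refine Or.inr fun x' r' g' => mk_deep _ _ _ ?_ ht c
      exact (List.suffix_cons_iff.1 h).resolve_left hne.symm

theorem mk_inside (x r g) {s t : Ad} (h : s <:+ t) (hne : t ≠ s) :
    K1 (mk x s r g) t ∧ K2 (mk x s r g) t := by
  refine ⟨fun c _ h' => absurd (mk_deep x r g h hne c) h', Or.inl ?_⟩
  rcases mk_cases h hne with ⟨c, rfl⟩ | h'
  · exact ⟨_, mk_child _ _ _ _ _⟩
  · exact ⟨0, by simp [h']⟩

theorem mk_fin {x : Ad → ℝ} (hx : Leg x) (s : Ad) (r : ℝ) {g : ℕ × ℕ → ℕ}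
    (hg : {c | g c ≠ 0}.Finite) : {t | mk x s r g t ≠ 0}.Finite := by
  refine ((hx.fin.insert s).union (hg.image fun c => c :: s)).subset fun t ht => ?_
  by_cases h : s <:+ t
  · rcases eq_or_ne t s with rfl | hne
    · exact Or.inl (Or.inl rfl)
    · rcases mk_cases h hne with ⟨c, rfl⟩ | h'
      · refine Or.inr ⟨c, ?_, rfl⟩
        simpa [mk_child] using ht
      · exact absurd (h' _ _ _) ht
  · exact Or.inl (Or.inr (by rwa [Set.mem_ofPred_eq, mk_out _ _ _ _ t h] at ht))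

theorem mk_dy {x : Ad → ℝ} (hx : Leg x) (s : Ad) (a m : ℕ) (g : ℕ × ℕ → ℕ) (t : Ad) :
    ∃ a' m' : ℕ, mk x s (a / 2 ^ m) g t = a' / 2 ^ m' := by
  by_cases h : s <:+ t
  · rcases eq_or_ne t s with rfl | hne
    · exact ⟨a, m, mk_self _ _ _ _⟩
    · rcases mk_cases h hne with ⟨c, rfl⟩ | h'
      · exact ⟨g c, 0, by simp [mk_child]⟩
      · exact ⟨0, 0, by simp [h']⟩
  · rw [mk_out _ _ _ _ t h]; exact hx.dy t

/-- The children values of the approximating configurations. -/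
def gap (a m : ℕ) (g : ℕ × ℕ → ℕ) (n : ℕ) (c : ℕ × ℕ) : ℕ :=
  if c = (m, a) then 1 else if c.2 < n then g c else 0

theorem leg_mk {s : Ad} {x x' : Ad → ℝ} (hx : Leg x) (hx' : Leg x') (ho : Out s x x')
    {a m : ℕ} (hm : 2 ≤ m) (h1 : x s ≤ a / 2 ^ m) (h2 : a / 2 ^ m ≤ x' s) {g : ℕ × ℕ → ℕ}
    (hg : ∀ c, 2 ≤ c.1 → g c = 0) (n : ℕ) : Leg (mk x s (a / 2 ^ m) (gap a m g n)) := by
  have key : ∀ t, K1 (mk x s (a / 2 ^ m) (gap a m g n)) t ∧
      K2 (mk x s (a / 2 ^ m) (gap a m g n)) t := by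
    intro t
    by_cases h : s <:+ t
    · rcases eq_or_ne t s with rfl | hne
      · refine ⟨fun c hc h' => ?_, Or.inr ⟨(m, a), hm, by simp [mk_child, gap, Win]⟩⟩
        rw [mk_self]
        rcases eq_or_ne c (m, a) with rfl | hne
        · rfl
        · simp [mk_child, gap, hne, hg c hc] at h'
      · exact mk_inside _ _ _ h hne
    · exact outside hx hx' ho (mk_out _ _ _ _) (by rwa [mk_self]) (by rwa [mk_self]) h
  refine ⟨mk_fin hx _ _ ?_, mk_dy hx _ _ _ _, fun t => (key t).1, fun t => (key t).2⟩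
  refine (((Set.finite_Iio 2).prod (Set.finite_Iio n)).insert (m, a)).subset fun c hc => ?_
  rcases eq_or_ne c (m, a) with rfl | hne
  · exact Or.inl rfl
  · simp only [gap, hne, if_false, Set.mem_ofPred_eq, ne_eq, ite_eq_right_iff,
      Classical.not_imp] at hc
    exact Or.inr ⟨not_le.1 fun h => hc.2 (hg c h), hc.1⟩

end Pool.Agent.Lib.MP_7511ee_lc
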