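import Pool.Agent.Lib.MP_7511ee_lc.Defs

/-!
The second level of the lightface projective hierarchy; categoricity of all computable Polish spaces.
-/

namespace Pool.Agent.Lib.MP_7511ee_lc

/-- Lightface `Σ¹₂` sets of numbers, in Kleene normal form. -/
def Sigma12 (A : Set ℕ) : Prop :=
  ∃ R : ℕ × List ℕ × List ℕ → Bool, Computable R ∧
    ∀ n : ℕ, n ∈ A ↔ ∃ x : ℕ → ℕ, ∀ y : ℕ → ℕ, ∃ k : ℕ,
      R (n, (List.range k).map x, (List.range k).map y) = true

/-- Lightface `Δ¹₂` sets of numbers. -/
def Delta12 (A : Set ℕ) : Prop := Sigma12 A ∧ Sigma12 Aᶜ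

/-- The space `X` is `α`-categorical; for `strict = true` only presentations without repeated
points are considered, for `strict = false` all presentations. -/
def Categorical (strict : Bool) (X : Type) [TopologicalSpace X] (α : ℕ → ℕ) : Prop :=
  ∀ M N : CMS, (strict = true → Function.Injective M.c ∧ Function.Injective N.c) →
    Nonempty (M.X ≃ₜ X) → Nonempty (N.X ≃ₜ X) →
      ∃ h : M.X ≃ₜ N.X, Realized α M N h ∧ Realized α N M h.symm

/-- Every computable Polish space is `α`-categorical. -/
def AllCategorical (α : ℕ → ℕ) : Prop :=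
  ∀ M N : CMS, Nonempty (M.X ≃ₜ N.X) →
    ∃ h : M.X ≃ₜ N.X, Realized α M N h ∧ Realized α N M h.symm

end Pool.Agent.Lib.MP_7511ee_lc
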