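import Pool.Agent.Lib.MP_7511ee_lc.Lower
import Pool.Agent.Lib.MP_7511ee_lc.SpecDefs

/-!
The `Π¹₁` singletons and the `Δ¹₂` sets have the same upper bounds.
-/

namespace Pool.Agent.Lib.MP_7511ee_lc

open Pool.Agent.Shared.Type2 Encodable Filter Topology

theorem pre_eq (g : B) (k : ℕ) : (List.range k).map g = pre g k := rfl

theorem tree_mono {T : B → List ℕ → Bool}
    (hc : ∀ x σ k, T x (σ ++ [k]) = true → T x σ = true) (x w : B) {s t : ℕ} (h : s ≤ t)
    (H : T x (pre w t) = true) : T x (pre w s) = true := by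
  induction t, h using Nat.le_induction with
  | base => exact H
  | succ t _ ih =>
    rw [pre_succ] at H
    exact ih (hc _ _ _ H)

theorem sigma12_of_sing {y : B} (hy : Sing y) {c : ℕ × ℕ → Bool} (hcc : TD c) :
    Sigma12 {n | c (n, y n.unpair.1) = true} := by
  obtain ⟨T, hT, hl, hc, hP⟩ := Sig.tree hy
  refine ⟨fun p => (!T (Sig.ext p.2.1) p.2.2) &&
    (decide (p.1.unpair.1 < p.2.1.length) && c (p.1, p.2.1.getD p.1.unpair.1 0)), ?_, fun n => ?_⟩
  · refine TD.computable (TD.and' (TD.not' ?_) (TD.and' ?_ ?_))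
    · exact hT.comp' (f := fun p : ℕ × List ℕ × List ℕ => (Sig.ext p.2.1, p.2.2)) (by fun_prop)
    · exact TD.decide_lt (by fun_prop) (by fun_prop)
    · exact hcc.comp' (by fun_prop)
  · have e1 : ∀ (x w : B) k, T (Sig.ext (pre x k)) (pre w k) = T x (pre w k) := fun x w k =>
      hl _ _ _ fun i hi => Sig.ext_pre x (by simpa using hi)
    simp only [pre_eq, e1, Bool.and_eq_true, Bool.not_eq_true', decide_eq_true_eq, pre_length,
      Set.mem_ofPred_eq]
    constructor
    · intro H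
      refine ⟨y, fun w => ?_⟩
      have h1 : ¬ ∃ w : B, ∀ n, T y (pre w n) = true := fun h => (hP y).2 h rfl
      push Not at h1
      obtain ⟨k, hk⟩ := h1 w
      refine ⟨max k (n.unpair.1 + 1), ?_, by omega, ?_⟩
      · by_contra h2
        exact hk (tree_mono hc y w (le_max_left _ _) (by simpa using h2))
      · rw [pre_getD y (by omega)]
        exact H
    · rintro ⟨x, hx⟩
      have h1 : x = y := by
        by_contra h2
        obtain ⟨w, hw⟩ := (hP x).1 h2
        obtain ⟨k, hk, -⟩ := hx w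
        simp [hw k] at hk
      subst h1
      obtain ⟨k, -, h2, h3⟩ := hx fun _ => 0
      rwa [pre_getD x h2] at h3

/-- The characteristic function of a set. -/
noncomputable abbrev chi (A : Set ℕ) : B := A.indicator fun _ => 1

theorem red_graph (y : B) : Red y (chi {n | y n.unpair.1 = n.unpair.2}) := by
  set g : B := chi {n | y n.unpair.1 = n.unpair.2} with hg
  have e : ∀ i m, g (Nat.pair i m) = 1 ↔ y i = m := fun i m => by
    by_cases h : y i = m <;> simp [hg, h]
  rw [red_iff_TD]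
  have h1 : TD fun p : (Pt1 g × ℕ) × ℕ => decide (ap p.1.1.1 (Nat.pair p.1.2 p.2) = 1) :=
    TD.decide_eq (by fun_prop) (by fun_prop)
  have h2 : ∀ p : Pt1 g × ℕ, ∃ m, decide (ap p.1.1 (Nat.pair p.2 m) = 1) = true := fun p =>
    ⟨y p.2, by simp [p.1.2, e]⟩
  have h3 := TD.find' (c := fun (p : Pt1 g × ℕ) m => decide (ap p.1.1 (Nat.pair p.2 m) = 1)) h1 h2
  refine (TD.lam' (F := fun (_ : Pt1 g) n => y n) (h3.of_eq fun p => ?_)).of_eq fun _ => rfl
  have h4 : ∀ m, decide (ap p.1.1 (Nat.pair p.2 m) = 1) = true → y p.2 = m := fun m hm => by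
    simpa [p.1.2, e] using hm
  exact (h4 _ (Nat.find_spec (h2 p))).symm

theorem delta12_graph {y : B} (hy : Sing y) : Delta12 {n | y n.unpair.1 = n.unpair.2} := by
  constructor
  · have := sigma12_of_sing hy (c := fun p => decide (p.2 = p.1.unpair.2))
      (TD.decide_eq (by fun_prop) (by fun_prop))
    simpa using this
  · have := sigma12_of_sing hy (c := fun p => decide (p.2 ≠ p.1.unpair.2))
      (TD.decide_ne (by fun_prop) (by fun_prop))
    simpa [Set.compl_ofPred] using this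

theorem sig_fail {R : ℕ × List ℕ × List ℕ → Bool} (hR : Computable R) (v : ℕ) :
    Sig fun p : B × ℕ => ap (ev p.1) p.2 ≠ v ∨ ∃ y : B, ∀ k : ℕ,
      R (p.2, pre (lam fun m => ap (od p.1) (Nat.pair p.2 m)) k, pre y k) = false := by
  refine (Sig.ne (by fun_prop) (by fun_prop)).or (Sig.exB (Sig.all (Sig.bool_false ?_)))
  exact (TD.of_computable hR).comp' (by fun_prop)

theorem exists_sing_of_delta12 {A : Set ℕ} (hA : Delta12 A) : ∃ z, Sing z ∧ Red (chi A) z := by
  obtain ⟨⟨R, hR, h1⟩, R', hR', h2⟩ := hA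
  have hS : Sig fun z : B => ∃ n : ℕ,
      (ap (ev z) n ≠ 1 ∨ ∃ y : B, ∀ k : ℕ,
        R (n, pre (lam fun m => ap (od z) (Nat.pair n m)) k, pre y k) = false) ∧
      (ap (ev z) n ≠ 0 ∨ ∃ y : B, ∀ k : ℕ,
        R' (n, pre (lam fun m => ap (od z) (Nat.pair n m)) k, pre y k) = false) :=
    Sig.ex ((sig_fail hR 1).and (sig_fail hR' 0))
  have hx : ∀ n, ∃ x : B, (n ∈ A → ∀ y : B, ∃ k, R (n, pre x k, pre y k) = true) ∧
      (n ∉ A → ∀ y : B, ∃ k, R' (n, pre x k, pre y k) = true) := fun n => by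
    by_cases h : n ∈ A
    · obtain ⟨x, hx⟩ := (h1 n).1 h
      exact ⟨x, fun _ => hx, fun h' => absurd h h'⟩
    · obtain ⟨x, hx⟩ := (h2 n).1 h
      exact ⟨x, fun h' => absurd h' h, fun _ => hx⟩
  choose x hx hx' using hx
  obtain ⟨z, hz, hz'⟩ := hS.exists_sing ⟨jn (chi A) fun k => x k.unpair.1 k.unpair.2, by
    rintro ⟨n, h3, h4⟩
    simp only [ev_jn, od_jn, ap_def, lam_def, Nat.unpair_pair] at h3 h4
    by_cases h : n ∈ A
    · rcases h3 with h3 | ⟨y, hy⟩
      · exact h3 (by simp [h])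
      · obtain ⟨k, hk⟩ := hx n h y
        exact absurd (hk.symm.trans (hy k)) (by decide)
    · rcases h4 with h4 | ⟨y, hy⟩
      · exact h4 (by simp [h])
      · obtain ⟨k, hk⟩ := hx' n h y
        exact absurd (hk.symm.trans (hy k)) (by decide)⟩
  refine ⟨z, hz', ?_⟩
  have e : chi A = ev z := funext fun n => by
    have h3 := not_and_or.1 (not_exists.1 hz n)
    rcases h3 with h3 | h3
    · push Not at h3
      have h4 : n ∈ A := (h1 n).2 ⟨_, fun y => by
        obtain ⟨k, hk⟩ := h3.2 y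
        exact ⟨k, by simpa [pre_eq] using hk⟩⟩
      rw [show ev z n = 1 from h3.1]
      simp [h4]
    · push Not at h3
      have h4 : n ∈ Aᶜ := (h2 n).2 ⟨_, fun y => by
        obtain ⟨k, hk⟩ := h3.2 y
        exact ⟨k, by simpa [pre_eq] using hk⟩⟩
      rw [show ev z n = 0 from h3.1]
      have h5 : n ∉ A := h4
      simp [h5]
  rw [e]
  exact (TD.ev' TD.id').red z

theorem sing_iff_delta12 {α : B} :
    (∀ y, Sing y → Red y α) ↔ ∀ A, Delta12 A → Red (chi A) α :=
  ⟨fun h A hA => by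
    obtain ⟨z, h1, h2⟩ := exists_sing_of_delta12 hA
    exact h2.trans (h z h1),
  fun h y hy => (red_graph y).trans (h _ (delta12_graph hy))⟩

/-- The lower bound for the product of a connected space with Baire space. -/
theorem lower_prod {strict : Bool} {α : B} (Y : CMS) [ConnectedSpace Y.X]
    (hα : Categorical strict (Y.X × B) α) {y : B} (hy : Sing y) : Red y α := by
  obtain ⟨X, i₀, i₁, hX, hne, H⟩ := exists_space hy
  obtain ⟨N, e, e1, e2, e3⟩ := exists_baire
  have near : ∀ (u : N.X) (k n : ℕ),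
      dist (N.c (mark (encode (pre (e u) (k + 2))) n)) u < 1 / 2 ^ k := fun u k n =>
    e3 _ _ k fun i hi => by rw [e1, ext_mark _ hi]
  have hd : ∀ Z : CMS,
      DenseRange fun n => (Z.prod N).c (Nat.pair n.unpair.1 (mark n.unpair.2 n)) := fun Z =>
    Metric.denseRange_iff.2 fun u ε hε => by
      obtain ⟨k, hk⟩ := exists_div_pow_lt 1 hε
      obtain ⟨i, hi⟩ := Z.dense.exists_dist_lt u.1 hε
      refine ⟨Nat.pair i (encode (pre (e u.2) (k + 2))), ?_⟩
      simp only [CMS.prod, Nat.unpair_pair]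
      exact max_lt hi (by rw [dist_comm]; exact (near u.2 k _).trans hk)
  let M' := ((Y.prod X).prod N).reindex _ (by fun_prop) (hd (Y.prod X))
  let N' := (Y.prod N).reindex _ (by fun_prop) (hd Y)
  obtain ⟨e'⟩ := hX
  let e'' : X.X × N.X ≃ₜ B := ((Homeomorph.refl _).prodCongr e).trans e'
  obtain ⟨h, ⟨c, hc⟩, -⟩ := hα M' N' (fun _ => ⟨fun a b hab => by
      have := congrArg (fun z : (Y.X × X.X) × N.X => e z.2) hab
      simp only [M', CMS.reindex, CMS.prod, Nat.unpair_pair, e1] at this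
      exact mark_inj this, fun a b hab => by
      have := congrArg (fun z : Y.X × N.X => e z.2) hab
      simp only [N', CMS.reindex, CMS.prod, Nat.unpair_pair, e1] at this
      exact mark_inj this⟩)
    ⟨(Homeomorph.prodAssoc Y.X X.X N.X).trans ((Homeomorph.refl _).prodCongr e'')⟩
    ⟨(Homeomorph.refl _).prodCongr e⟩
  let h' : (Y.X × X.X) × N.X ≃ₜ Y.X × N.X := h
  let u₀ : N.X := e.symm (lam fun _ => 0)
  obtain ⟨n₀, hn₀⟩ : ∃ n, e (h' ((Y.c 0, X.c i₀), u₀)).2 n ≠ e (h' ((Y.c 0, X.c i₁), u₀)).2 n := by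
    by_contra hn
    push Not at hn
    have hv : (h' ((Y.c 0, X.c i₀), u₀)).2 = (h' ((Y.c 0, X.c i₁), u₀)).2 :=
      e.injective (funext hn)
    let g : Y.X → B := fun t => e'' ((h'.symm (t, (h' ((Y.c 0, X.c i₀), u₀)).2)).1.2,
      (h'.symm (t, (h' ((Y.c 0, X.c i₀), u₀)).2)).2)
    have hg : Continuous g := by fun_prop
    have h1 := (isPreconnected_range hg).subsingleton
      ⟨(h' ((Y.c 0, X.c i₀), u₀)).1, rfl⟩ ⟨(h' ((Y.c 0, X.c i₁), u₀)).1, rfl⟩
    have h2 : ((h' ((Y.c 0, X.c i₁), u₀)).1, (h' ((Y.c 0, X.c i₀), u₀)).2) =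
        h' ((Y.c 0, X.c i₁), u₀) := by rw [hv]
    simp only [g, h2, Prod.mk.eta, Homeomorph.symm_apply_apply] at h1
    exact hne (congrArg Prod.fst (e''.injective h1))
  have hcont : Continuous fun z : X.X => e (h' ((Y.c 0, z), u₀)).2 n₀ :=
    (continuous_apply n₀).comp (by fun_prop)
  refine H (fun z => decide (e (h' ((Y.c 0, z), u₀)).2 n₀ = e (h' ((Y.c 0, X.c i₀), u₀)).2 n₀)) α
    ((continuous_of_discreteTopology
      (f := fun k => decide (k = e (h' ((Y.c 0, X.c i₀), u₀)).2 n₀))).comp hcont)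
    (by simpa using hn₀.symm) (TD.decide_eq ?_ (by fun_prop))
  let ν : ℕ → B := fun i => lam fun k =>
    Nat.pair (Nat.pair 0 i) (encode (pre (lam fun _ => 0) (k + 2)))
  have hν : ∀ i, IsName M' (ν i) ((Y.c 0, X.c i), u₀) := fun i k => by
    simp only [M', ν, CMS.reindex, CMS.prod, lam_def, Nat.unpair_pair]
    refine max_lt (by simp) ?_
    have := near u₀ k (Nat.pair (Nat.pair 0 i) (encode (pre (lam fun _ => 0) (k + 2))))
    simpa only [u₀, e.apply_symm_apply, lam_def] using this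
  choose q hq hq' using fun i => hc _ _ (hν i)
  have h1 : TD fun z : {z : B // ∀ k, (c.eval z k).Dom} => lam fun k => (c.eval z.1 k).get (z.2 k) :=
    ⟨c, fun z k => Part.get_mem _⟩
  have h2 : TD fun a : Pt1 α × ℕ => (⟨jn a.1.1 (ν a.2), fun k => by
      rw [a.1.2]; exact Part.dom_iff_mem.2 ⟨_, hq' a.2 k⟩⟩ : {z : B // ∀ k, (c.eval z k).Dom}) :=
    TD.sub_mk (by simp only [ν]; fun_prop) _
  have h3 : TD fun a : Pt1 α × ℕ => q a.2 := (h1.comp' h2).of_eq (by
    rintro ⟨⟨_, rfl⟩, i⟩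
    exact funext fun k => Part.get_eq_of_mem (hq' i k) _)
  have h5 : TD fun a : Pt1 α × ℕ => ap (q a.2) n₀ := h3.ap' (by fun_prop)
  have h4 : TD fun a : Pt1 α × ℕ =>
      ap (Sig.ext (un (List ℕ) (mark (ap (q a.2) n₀).unpair.2 (ap (q a.2) n₀)))) n₀ :=
    TD.ap' (TD.ext' (TD_un (TD_mark h5.unpair'.snd h5))) (by fun_prop)
  refine h4.of_eq fun a => ?_
  rw [← e1]
  refine e2 _ _ n₀ ?_
  have h6 := hq a.2 n₀
  simp only [N', CMS.reindex, CMS.prod, Nat.unpair_pair] at h6
  exact (le_max_right _ _).trans_lt h6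

end Pool.Agent.Lib.MP_7511ee_lc
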