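import Pool.Agent.Shared.Type2.Cone
import Pool.Agent.Lib.MP_7511ee_lc.Defs

/-!
An oracle that computes all `Π¹₁` singletons computes a homeomorphism between any two
homeomorphic computable metric spaces.
-/

namespace Pool.Agent.Lib.MP_7511ee_lc

open Pool.Agent.Shared.Type2 Encodable Filter Topology

/-- Computable real-valued functions. -/
def CR {X : Type} [Rep X] (F : X → ℝ) : Prop :=
  ∃ (C : ℕ) (G : X × ℕ → ℕ), TD G ∧ ∀ x k, |F x - (G (x, k) : ℝ) / 2 ^ k| ≤ C / 2 ^ k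

theorem exists_div_pow_lt (C : ℝ) {ε : ℝ} (hε : 0 < ε) : ∃ k : ℕ, C / 2 ^ k < ε := by
  obtain ⟨k, hk⟩ := pow_unbounded_of_one_lt (C / ε) (one_lt_two (α := ℝ))
  refine ⟨k, ?_⟩
  rw [div_lt_iff₀ hε] at hk
  rw [div_lt_iff₀ (by positivity)]
  linarith

namespace CR

variable {X X' : Type} [Rep X] [Rep X']

theorem comp {F : X' → ℝ} (h : CR F) {f : X → X'} (hf : TD f) : CR fun x => F (f x) := by
  obtain ⟨C, G, hG, h⟩ := h
  exact ⟨C, fun p => G (f p.1, p.2), by fun_prop, fun x k => h _ _⟩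

theorem add {F F' : X → ℝ} (h : CR F) (h' : CR F') : CR fun x => F x + F' x := by
  obtain ⟨C, G, hG, h⟩ := h
  obtain ⟨C', G', hG', h'⟩ := h'
  refine ⟨C + C', fun p => G p + G' p, by fun_prop, fun x k => ?_⟩
  have h1 := abs_le.1 (h x k)
  have h2 := abs_le.1 (h' x k)
  push_cast
  rw [add_div, add_div, abs_le]
  constructor <;> linarith

theorem pow {r : X → ℕ} (hr : TD r) : CR fun x => 1 / 2 ^ r x := by
  refine ⟨1, fun p => 2 ^ p.2 / 2 ^ r p.1, by fun_prop, fun x k => ?_⟩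
  have h1 : ((2 ^ k / 2 ^ r x : ℕ) : ℝ) ≤ 2 ^ k / 2 ^ r x := by
    exact_mod_cast (Nat.cast_div_le (α := ℝ) (m := 2 ^ k) (n := 2 ^ r x))
  have h2 : (2 : ℝ) ^ k / 2 ^ r x < ((2 ^ k / 2 ^ r x : ℕ) : ℝ) + 1 := by
    rw [div_lt_iff₀ (by positivity)]
    have := Nat.lt_mul_div_succ (2 ^ k) (show 0 < 2 ^ r x by positivity)
    rw [mul_comm] at this
    exact_mod_cast this
  have h3 : (1 : ℝ) / 2 ^ r x = (2 ^ k / 2 ^ r x) / 2 ^ k := by field_simp
  simp only [h3, ← sub_div, abs_div, abs_of_pos (show (0 : ℝ) < 2 ^ k by positivity)]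
  gcongr
  rw [abs_le]
  constructor <;> push_cast <;> linarith

theorem test {F F' : X → ℝ} (h : CR F) (h' : CR F') :
    ∃ c : X × ℕ → Bool, TD c ∧ ∀ x, F x < F' x ↔ ∃ k, c (x, k) = true := by
  obtain ⟨C, G, hG, h⟩ := h
  obtain ⟨C', G', hG', h'⟩ := h'
  refine ⟨fun p => decide (G p + C + C' < G' p), by fun_prop, fun x => ?_⟩
  simp only [decide_eq_true_eq]
  constructor
  · intro H
    obtain ⟨k, hk⟩ := exists_div_pow_lt (2 * C + 2 * C') (sub_pos.2 H)
    refine ⟨k, ?_⟩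
    have h1 := abs_le.1 (h x k)
    have h2 := abs_le.1 (h' x k)
    have h3 : ((G (x, k) : ℝ) + C + C') / 2 ^ k < G' (x, k) / 2 ^ k := by
      rw [add_div, add_div]
      rw [add_div, mul_div_assoc, mul_div_assoc] at hk
      linarith
    rw [div_lt_div_iff_of_pos_right (by positivity)] at h3
    exact_mod_cast h3
  · rintro ⟨k, hk⟩
    have h1 := abs_le.1 (h x k)
    have h2 := abs_le.1 (h' x k)
    have h3 : ((G (x, k) : ℝ) + C + C') / 2 ^ k < G' (x, k) / 2 ^ k := by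
      rw [div_lt_div_iff_of_pos_right (by positivity)]
      exact_mod_cast hk
    rw [add_div, add_div] at h3
    linarith

theorem lt {F F' : X → ℝ} (h : CR F) (h' : CR F') : Sig fun x => F x < F' x := by
  obtain ⟨c, hc, H⟩ := h.test h'
  exact (Sig.ex (P := fun x k => c (x, k) = true) (Sig.bool hc)).of_iff fun x => (H x).symm

theorem le {F F' : X → ℝ} (h : CR F) (h' : CR F') : Sig fun x => F x ≤ F' x := by
  obtain ⟨c, hc, H⟩ := h'.test h
  refine (Sig.all (P := fun x k => c (x, k) = false) (Sig.bool_false hc)).of_iff fun x => ?_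
  rw [← not_lt, H]
  simp

theorem dist_pt (M : CMS) {C : ℕ} {p : X → B} {x : X → M.X} {i : X → ℕ} (hp : TD p) (hi : TD i)
    (h : ∀ a k, dist (M.c (p a k)) (x a) ≤ C / 2 ^ k) : CR fun a => dist (M.c (i a)) (x a) := by
  obtain ⟨g, hg, H⟩ := M.comp
  have hg' := TD.of_computable hg
  refine ⟨C + 1, fun q => g (i q.1, ap (p q.1) q.2, q.2), by fun_prop, fun a k => ?_⟩
  have h1 := abs_le.1 (H (i a) (p a k) k)
  have h2 := abs_le.1 ((abs_dist_sub_le (x a) (M.c (p a k)) (M.c (i a))).trans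
    ((dist_comm _ _).trans_le (h a k)))
  rw [dist_comm (x a), dist_comm (M.c (p a k))] at h2
  push_cast
  rw [add_div, abs_le, ap_def]
  constructor <;> linarith

theorem dist_c (M : CMS) {i j : X → ℕ} (hi : TD i) (hj : TD j) :
    CR fun a => dist (M.c (i a)) (M.c (j a)) :=
  dist_pt M (C := 0) (p := fun a => lam fun _ => j a) (by fun_prop) hi fun a k => by simp

end CR

theorem exists_name (M : CMS) (x : M.X) : ∃ p, IsName M p x := by
  choose p hp using fun k : ℕ => M.dense.exists_dist_lt x (show (0 : ℝ) < 1 / 2 ^ k by positivity)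
  exact ⟨p, fun k => by rw [dist_comm]; exact hp k⟩

theorem eq_of_close {Y : Type} [MetricSpace Y] {y y' : Y} (C : ℝ)
    (h : ∀ k : ℕ, dist y y' ≤ C / 2 ^ k) : y = y' := by
  refine eq_of_forall_dist_le fun ε hε => ?_
  obtain ⟨k, hk⟩ := exists_div_pow_lt C hε
  exact (h k).trans hk.le

theorem IsName.unique {M : CMS} {p : B} {x x' : M.X} (h : IsName M p x) (h' : IsName M p x') :
    x = x' :=
  eq_of_close 2 fun k => by
    have := dist_triangle_left x x' (M.c (p k))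
    have h1 := h k
    have h2 := h' k
    rw [show (2 : ℝ) / 2 ^ k = 1 / 2 ^ k + 1 / 2 ^ k by ring]
    linarith

/-- A total computable parametrisation of the points by Baire space. -/
theorem exists_param (M : CMS) : ∃ π : B → M.X, Function.Surjective π ∧
    CR fun a : B × ℕ => dist (M.c a.2) (π a.1) := by
  obtain ⟨g, hg, H⟩ := M.comp
  have hg' := TD.of_computable hg
  set s : B → B := fun p => lam fun k => nrec k (ap p 0) fun k j =>
    if g (j, ap p (k + 1), k + 2) ≤ 7 then ap p (k + 1) else j with hs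
  have hsT : TD s := by rw [hs]; fun_prop
  have hs0 : ∀ p, s p 0 = p 0 := fun p => rfl
  have hs1 : ∀ p k, s p (k + 1) = if g (s p k, p (k + 1), k + 2) ≤ 7 then p (k + 1) else s p k :=
    fun p k => rfl
  have hd : ∀ p k, dist (M.c (s p k)) (M.c (s p (k + 1))) ≤ 4 / 2 / 2 ^ k := by
    intro p k
    rw [hs1]
    split_ifs with h
    · have h1 := (abs_le.1 (H (s p k) (p (k + 1)) (k + 2))).2
      have h2 : (g (s p k, p (k + 1), k + 2) : ℝ) / 2 ^ (k + 2) ≤ 7 / 2 ^ (k + 2) := by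
        gcongr; exact_mod_cast h
      have h3 : (4 : ℝ) / 2 / 2 ^ k = 7 / 2 ^ (k + 2) + 1 / 2 ^ (k + 2) := by
        field_simp; ring
      linarith
    · simp only [dist_self]; positivity
  choose π hπ using fun p => cauchySeq_tendsto_of_complete (cauchySeq_of_le_geometric_two (hd p))
  have hd' : ∀ p k, dist (M.c (s p k)) (π p) ≤ 4 / 2 ^ k := fun p k =>
    dist_le_of_le_geometric_two_of_tendsto (hd p) (hπ p) k
  refine ⟨π, fun x => ?_, CR.dist_pt M (C := 4) (p := fun a => s a.1) (by fun_prop) (by fun_prop)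
    fun a k => by exact_mod_cast hd' a.1 k⟩
  obtain ⟨p, hp⟩ := exists_name M x
  have : ∀ k, s p k = p k := by
    intro k
    induction k with
    | zero => rfl
    | succ k ih =>
      rw [hs1, ih, if_pos]
      have h1 := (abs_le.1 (H (p k) (p (k + 1)) (k + 2))).1
      have h2 := dist_triangle_right (M.c (p k)) (M.c (p (k + 1))) x
      have h3 := hp k
      have h4 := hp (k + 1)
      have h5 : (1 : ℝ) / 2 ^ k + 1 / 2 ^ (k + 1) + 1 / 2 ^ (k + 2) = 7 / 2 ^ (k + 2) := by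
        field_simp; ring
      have h6 : (g (p k, p (k + 1), k + 2) : ℝ) / 2 ^ (k + 2) ≤ 7 / 2 ^ (k + 2) := by linarith
      rw [div_le_div_iff_of_pos_right (by positivity)] at h6
      exact_mod_cast h6
  refine ⟨p, eq_of_close 5 fun k => ?_⟩
  have h1 := hd' p k
  rw [this] at h1
  have h2 := hp k
  have h3 := dist_triangle_left (π p) x (M.c (p k))
  rw [show (5 : ℝ) / 2 ^ k = 4 / 2 ^ k + 1 / 2 ^ k by ring]
  linarith

/-- The pair `(x, y)` obeys all rules listed by `u`. -/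
def Gr (M N : CMS) (u : B) (x : M.X) (y : N.X) : Prop :=
  ∀ q : ℕ × ℕ × ℕ × ℕ, ap u (encode q) ≠ 1 ∨ 1 / 2 ^ q.2.1 ≤ dist (M.c q.1) x ∨
    dist (N.c q.2.2.1) y ≤ 1 / 2 ^ q.2.2.2

/-- Rules of every precision apply to every point. -/
def Tot (M : CMS) (u : B) : Prop :=
  ∀ (x : M.X) (s : ℕ), ∃ q : ℕ × ℕ × ℕ, ap u (encode (q.1, q.2.1, q.2.2, s)) = 1 ∧
    dist (M.c q.1) x < 1 / 2 ^ q.2.1

/-- Rules that apply to the same point are consistent. -/
def Cons (M N : CMS) (u : B) : Prop :=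
  ∀ (x : M.X) (q q' : ℕ × ℕ × ℕ × ℕ), ap u (encode q) = 1 → ap u (encode q') = 1 →
    dist (M.c q.1) x < 1 / 2 ^ q.2.1 → dist (M.c q'.1) x < 1 / 2 ^ q'.2.1 →
      dist (N.c q.2.2.1) (N.c q'.2.2.1) ≤ 1 / 2 ^ q.2.2.2 + 1 / 2 ^ q'.2.2.2

/-- Half of the conditions on a code of a homeomorphism. -/
def Half (M N : CMS) (u v : B) : Prop :=
  Tot M u ∧ Cons M N u ∧ ∀ x y, Gr M N u x y → Gr N M v y x

theorem Gr.use {M N : CMS} {u : B} {x : M.X} {y : N.X} (h : Gr M N u x y) {i r j s : ℕ}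
    (h1 : ap u (encode (i, r, j, s)) = 1) (h2 : dist (M.c i) x < 1 / 2 ^ r) :
    dist (N.c j) y ≤ 1 / 2 ^ s := by
  rcases h (i, r, j, s) with h | h | h
  · exact absurd h1 h
  · exact absurd h2 (not_lt.2 h)
  · exact h

theorem exists_fun {M N : CMS} {u : B} (ht : Tot M u) (hc : Cons M N u) :
    ∃ f : M.X → N.X, (∀ x, Gr M N u x (f x)) ∧ (∀ x y, Gr M N u x y → y = f x) ∧
      Continuous f := by
  have hex : ∀ x, ∃ y, Gr M N u x y := by
    intro x
    choose q hq using ht x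
    have hd : ∀ s, dist (N.c (q s).2.2) (N.c (q (s + 1)).2.2) ≤ 4 / 2 / 2 ^ s := fun s => by
      have := hc x _ _ (hq s).1 (hq (s + 1)).1 (hq s).2 (hq (s + 1)).2
      refine this.trans ?_
      have h5 : (4 : ℝ) / 2 / 2 ^ s = 1 / 2 ^ s + 1 / 2 ^ (s + 1) + 1 / 2 ^ (s + 1) := by
        field_simp; ring
      have : (0 : ℝ) < 1 / 2 ^ (s + 1) := by positivity
      simp only
      linarith
    obtain ⟨y, hy⟩ := cauchySeq_tendsto_of_complete (cauchySeq_of_le_geometric_two hd)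
    have hd' := dist_le_of_le_geometric_two_of_tendsto hd hy
    refine ⟨y, fun r => ?_⟩
    by_cases h1 : ap u (encode r) = 1
    · by_cases h2 : dist (M.c r.1) x < 1 / 2 ^ r.2.1
      · refine Or.inr (Or.inr (le_of_forall_pos_le_add fun ε hε => ?_))
        obtain ⟨k, hk⟩ := exists_div_pow_lt 5 hε
        have h3 := hc x _ _ h1 (hq k).1 h2 (hq k).2
        have h4 := hd' k
        have h5 := dist_triangle (N.c r.2.2.1) (N.c (q k).2.2) y
        rw [show (5 : ℝ) / 2 ^ k = 4 / 2 ^ k + 1 / 2 ^ k by ring] at hk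
        simp only at h3
        linarith
      · exact Or.inr (Or.inl (not_lt.1 h2))
    · exact Or.inl h1
  choose f hf using hex
  refine ⟨f, hf, fun x y hy => eq_of_close 2 fun k => ?_, Metric.continuous_iff.2 fun x ε hε => ?_⟩
  · obtain ⟨q, h1, h2⟩ := ht x k
    have h3 := hy.use h1 h2
    have h4 := (hf x).use h1 h2
    have := dist_triangle_left y (f x) (N.c q.2.2)
    rw [show (2 : ℝ) / 2 ^ k = 1 / 2 ^ k + 1 / 2 ^ k by ring]
    linarith
  · obtain ⟨k, hk⟩ := exists_div_pow_lt 2 hε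
    obtain ⟨q, h1, h2⟩ := ht x k
    refine ⟨_, sub_pos.2 h2, fun a ha => ?_⟩
    have h3 := (hf a).use h1 (by
      have := dist_triangle_right (M.c q.1) a x
      rw [dist_comm a x] at this
      have := dist_triangle (M.c q.1) x a
      rw [dist_comm x a] at this
      linarith)
    have h4 := (hf x).use h1 h2
    have := dist_triangle_left (f a) (f x) (N.c q.2.2)
    rw [show (2 : ℝ) / 2 ^ k = 1 / 2 ^ k + 1 / 2 ^ k by ring] at hk
    linarith

/-- Joins of the oracle with names of points. -/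
abbrev Dom (M : CMS) (β : B) : Type := {z : B // ev z = β ∧ ∃ x, IsName M (od z) x}

theorem realized_of {M N : CMS} {u β : B} (hu : Red u β) (ht : Tot M u) {f : M.X → N.X}
    (hf : ∀ x, Gr M N u x (f x)) : Realized β M N f := by
  let pt : Dom M β → M.X := fun z => z.2.2.choose
  have hpt : ∀ z : Dom M β, IsName M (od z.1) (pt z) := fun z => z.2.2.choose_spec
  have huT : TD fun _ : Dom M β => u :=
    (red_iff_TD.1 hu).comp'
      (TD.sub_mk (f := fun z : Dom M β => ev z.1) (by fun_prop) fun z => z.2.1)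
  have h1 : CR fun a : Dom M β × ℕ × ℕ => dist (M.c a.2.1) (pt a.1) :=
    CR.dist_pt M (C := 1) (p := fun a => od a.1.1) (by fun_prop) (by fun_prop)
      fun a k => by exact_mod_cast (hpt a.1 k).le
  obtain ⟨c, hc, H⟩ := h1.test (CR.pow (r := fun a : Dom M β × ℕ × ℕ => a.2.2) (by fun_prop))
  set t : Dom M β × ℕ → ℕ → Bool := fun a n =>
    decide (ap u (encode (n.unpair.1.unpair.1, n.unpair.1.unpair.2, n.unpair.2.unpair.1,
      a.2 + 1)) = 1) && c ((a.1, n.unpair.1.unpair.1, n.unpair.1.unpair.2), n.unpair.2.unpair.2)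
    with htd
  have htT : TD fun p : (Dom M β × ℕ) × ℕ => t p.1 p.2 := by
    have : TD fun _ : (Dom M β × ℕ) × ℕ => u :=
      huT.comp' (f := fun p : (Dom M β × ℕ) × ℕ => p.1.1) (by fun_prop)
    exact TD.and' (TD.decide_eq (this.ap' (by fun_prop)) (by fun_prop)) (by fun_prop)
  have hex : ∀ a, ∃ n, t a n = true := by
    rintro ⟨z, k⟩
    obtain ⟨q, h2, h3⟩ := ht (pt z) (k + 1)
    obtain ⟨m, hm⟩ := (H (z, q.1, q.2.1)).1 h3
    refine ⟨Nat.pair (Nat.pair q.1 q.2.1) (Nat.pair q.2.2 m), ?_⟩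
    simp only [htd, Nat.unpair_pair, h2, hm, decide_true, Bool.and_self]
  have hF : TD fun a : Dom M β × ℕ => (Nat.find (hex a)).unpair.2.unpair.1 :=
    (TD.find' htT hex).unpair'.snd.unpair'.fst
  obtain ⟨e, he⟩ := TD.lam' (F := fun z k => (Nat.find (hex (z, k))).unpair.2.unpair.1) hF
  refine ⟨e, fun x p hp => ?_⟩
  let z : Dom M β := ⟨jn β p, by simp, x, by simpa using hp⟩
  refine ⟨_, fun k => ?_, he z⟩
  have h2 := Nat.find_spec (hex (z, k))
  have hx : pt z = x := (hpt z).unique (by simpa [z] using hp)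
  change dist (N.c (Nat.find (hex (z, k))).unpair.2.unpair.1) (f x) < _
  generalize Nat.find (hex (z, k)) = n at h2 ⊢
  simp only [htd, Bool.and_eq_true, decide_eq_true_eq] at h2
  have h3 := (hf x).use h2.1 (hx ▸ (H _).2 ⟨_, h2.2⟩)
  refine h3.trans_lt ?_
  gcongr <;> simp

theorem sig_not_half (M N : CMS) {X : Type} [Rep X] {u v : X → B} (hu : TD u) (hv : TD v) :
    Sig fun a => ¬ Half M N (u a) (v a) := by
  obtain ⟨π, hπ, hD⟩ := exists_param M
  obtain ⟨ρ, hρ, hE⟩ := exists_param N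
  have hD' : ∀ {Y : Type} [Rep Y] {p : Y → B} {i : Y → ℕ}, TD p → TD i →
      CR fun a => dist (M.c (i a)) (π (p a)) := fun hp hi => hD.comp (hp.pair hi)
  have hE' : ∀ {Y : Type} [Rep Y] {p : Y → B} {i : Y → ℕ}, TD p → TD i →
      CR fun a => dist (N.c (i a)) (ρ (p a)) := fun hp hi => hE.comp (hp.pair hi)
  have h1 : Sig fun a => ∃ p : B, ∃ s : ℕ, ∀ q : ℕ × ℕ × ℕ,
      ap (u a) (encode (q.1, q.2.1, q.2.2, s)) ≠ 1 ∨ 1 / 2 ^ q.2.1 ≤ dist (M.c q.1) (π p) :=
    Sig.exB (Sig.ex (Sig.all (Sig.or (Sig.ne (by fun_prop) (by fun_prop))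
      (CR.le (CR.pow (by fun_prop)) (hD' (by fun_prop) (by fun_prop))))))
  have h2 : Sig fun a => ∃ p : B, ∃ q : ℕ × ℕ × ℕ × ℕ, ∃ q' : ℕ × ℕ × ℕ × ℕ,
      ap (u a) (encode q) = 1 ∧ ap (u a) (encode q') = 1 ∧
      dist (M.c q.1) (π p) < 1 / 2 ^ q.2.1 ∧ dist (M.c q'.1) (π p) < 1 / 2 ^ q'.2.1 ∧
      1 / 2 ^ q.2.2.2 + 1 / 2 ^ q'.2.2.2 < dist (N.c q.2.2.1) (N.c q'.2.2.1) :=
    Sig.exB (Sig.ex (Sig.ex (Sig.and (Sig.eq (by fun_prop) (by fun_prop))
      (Sig.and (Sig.eq (by fun_prop) (by fun_prop))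
      (Sig.and (CR.lt (hD' (by fun_prop) (by fun_prop)) (CR.pow (by fun_prop)))
      (Sig.and (CR.lt (hD' (by fun_prop) (by fun_prop)) (CR.pow (by fun_prop)))
      (CR.lt ((CR.pow (by fun_prop)).add (CR.pow (by fun_prop)))
        (CR.dist_c N (by fun_prop) (by fun_prop)))))))))
  have h3 : Sig fun a => ∃ p : B, ∃ p' : B, Gr M N (u a) (π p) (ρ p') ∧
      ∃ q : ℕ × ℕ × ℕ × ℕ, ap (v a) (encode q) = 1 ∧ dist (N.c q.1) (ρ p') < 1 / 2 ^ q.2.1 ∧
        1 / 2 ^ q.2.2.2 < dist (M.c q.2.2.1) (π p) := by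
    unfold Gr
    exact Sig.exB (Sig.exB (Sig.and (Sig.all (Sig.or (Sig.ne (by fun_prop) (by fun_prop))
      (Sig.or (CR.le (CR.pow (by fun_prop)) (hD' (by fun_prop) (by fun_prop)))
        (CR.le (hE' (by fun_prop) (by fun_prop)) (CR.pow (by fun_prop))))))
      (Sig.ex (Sig.and (Sig.eq (by fun_prop) (by fun_prop))
        (Sig.and (CR.lt (hE' (by fun_prop) (by fun_prop)) (CR.pow (by fun_prop)))
          (CR.lt (CR.pow (by fun_prop)) (hD' (by fun_prop) (by fun_prop))))))))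
  refine (h1.or (h2.or h3)).of_iff fun a => ?_
  unfold Half
  rw [not_and_or, not_and_or]
  refine or_congr ?_ (or_congr ?_ ?_)
  · unfold Tot
    rw [hπ.forall]
    push Not
    refine exists_congr fun p => exists_congr fun s => forall_congr' fun q => ?_
    tauto
  · unfold Cons
    rw [hπ.forall]
    push Not
    rfl
  · rw [hπ.forall]
    simp only [hρ.forall]
    push Not
    refine exists_congr fun p => exists_congr fun p' => and_congr_right fun _ => ?_
    unfold Gr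
    push Not
    rfl

open Classical in
/-- The list of all rules obeyed by a function. -/
noncomputable def rules (M N : CMS) (f : M.X → N.X) : B := fun n =>
  if ∃ q : ℕ × ℕ × ℕ × ℕ, n = encode q ∧ ∀ x, dist (M.c q.1) x < 1 / 2 ^ q.2.1 →
    dist (N.c q.2.2.1) (f x) ≤ 1 / 2 ^ q.2.2.2 then 1 else 0

theorem rules_iff {M N : CMS} {f : M.X → N.X} {q : ℕ × ℕ × ℕ × ℕ} :
    ap (rules M N f) (encode q) = 1 ↔ ∀ x, dist (M.c q.1) x < 1 / 2 ^ q.2.1 →
      dist (N.c q.2.2.1) (f x) ≤ 1 / 2 ^ q.2.2.2 := by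
  simp only [ap_def, rules]
  split_ifs with h
  · obtain ⟨q', h1, h2⟩ := h
    rw [encode_injective h1]
    simpa using h2
  · simp only [false_iff]
    exact fun h' => h ⟨q, rfl, h'⟩

theorem tot_rules {M N : CMS} {f : M.X → N.X} (hf : Continuous f) : Tot M (rules M N f) := by
  intro x s
  obtain ⟨δ, hδ, H⟩ := Metric.continuous_iff.1 hf x (1 / 2 ^ (s + 1)) (by positivity)
  obtain ⟨r, hr⟩ := exists_div_pow_lt 2 hδ
  obtain ⟨i, hi⟩ := M.dense.exists_dist_lt x (show (0 : ℝ) < 1 / 2 ^ r by positivity)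
  obtain ⟨j, hj⟩ := N.dense.exists_dist_lt (f x) (show (0 : ℝ) < 1 / 2 ^ (s + 1) by positivity)
  refine ⟨(i, r, j), rules_iff.2 fun a ha => ?_, by rwa [dist_comm]⟩
  have h1 := dist_triangle_left a x (M.c i)
  rw [dist_comm] at hi
  rw [show (2 : ℝ) / 2 ^ r = 1 / 2 ^ r + 1 / 2 ^ r by ring] at hr
  have h2 := H a (by simp only at ha; linarith)
  have h3 := dist_triangle_left (N.c j) (f a) (f x)
  have h4 : (1 : ℝ) / 2 ^ s = 1 / 2 ^ (s + 1) + 1 / 2 ^ (s + 1) := by field_simp; ring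
  rw [dist_comm] at h2
  simp only
  linarith

theorem gr_rules {M N : CMS} {f : M.X → N.X} (x : M.X) : Gr M N (rules M N f) x (f x) := by
  intro q
  by_cases h : ap (rules M N f) (encode q) = 1
  · by_cases h2 : dist (M.c q.1) x < 1 / 2 ^ q.2.1
    · exact Or.inr (Or.inr (rules_iff.1 h x h2))
    · exact Or.inr (Or.inl (not_lt.1 h2))
  · exact Or.inl h

theorem half_rules {M N : CMS} (h : M.X ≃ₜ N.X) :
    Half M N (rules M N h) (rules N M h.symm) := by
  have hc : Cons M N (rules M N h) := fun x q q' h1 h2 h3 h4 => by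
    have h5 := rules_iff.1 h1 x h3
    have h6 := rules_iff.1 h2 x h4
    have := dist_triangle_right (N.c q.2.2.1) (N.c q'.2.2.1) (h x)
    linarith
  refine ⟨tot_rules h.continuous, hc, fun x y hxy => ?_⟩
  obtain ⟨f, -, hf, -⟩ := exists_fun (tot_rules h.continuous) hc
  have : y = h x := (hf x y hxy).trans (hf x _ (gr_rules x)).symm
  have h2 := gr_rules (M := N) (N := M) (f := h.symm) y
  rwa [this, h.symm_apply_apply, ← this] at h2

/-- An oracle above all `Π¹₁` singletons computes a homeomorphism. -/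
theorem upper {β : B} (hβ : ∀ y, Sing y → Red y β) (M N : CMS) (h : M.X ≃ₜ N.X) :
    ∃ h : M.X ≃ₜ N.X, Realized β M N h ∧ Realized β N M h.symm := by
  have hS : Sig fun w : B => ¬ Half M N (ev w) (od w) ∨ ¬ Half N M (od w) (ev w) :=
    (sig_not_half M N (by fun_prop) (by fun_prop)).or
      (sig_not_half N M (by fun_prop) (by fun_prop))
  obtain ⟨w, hw, hw'⟩ := hS.exists_sing ⟨jn (rules M N h) (rules N M h.symm), by
    simpa using ⟨half_rules h, half_rules h.symm⟩⟩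
  push Not at hw
  obtain ⟨⟨t1, c1, i1⟩, t2, c2, i2⟩ := hw
  obtain ⟨f, f1, f2, f3⟩ := exists_fun t1 c1
  obtain ⟨g, g1, g2, g3⟩ := exists_fun t2 c2
  have r := hβ w hw'
  refine ⟨⟨⟨f, g, fun x => (g2 _ _ (i1 _ _ (f1 x))).symm, fun y => (f2 _ _ (i2 _ _ (g1 y))).symm⟩,
    f3, g3⟩, realized_of (((TD.ev' TD.id').red w).trans r) t1 f1,
    realized_of (((TD.od' TD.id').red w).trans r) t2 g1⟩

theorem categorical_of {β : B} (hβ : ∀ y, Sing y → Red y β) (strict : Bool) :
    BaireCategorical strict β :=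
  fun M N _ ⟨h⟩ ⟨h'⟩ => upper hβ M N (h.trans h'.symm)

end Pool.Agent.Lib.MP_7511ee_lc
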